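import Pool.Agent.P.MP_8be758_nt.L3.If
import Pool.Agent.P.MP_8be758_nt.L2.TCPL

/-! Step CPL. -/

namespace Pool.Agent.P.MP_8be758_nt.L3

open Polynomial Finset Filter
open Pool.Agent.P.MP_8be758_nt.C2 Pool.Agent.P.MP_8be758_nt.L2
open scoped Classical Topology

theorem p_CPL (hSQF : S_SQF) :
    S_CPL := by
  intro k _ _ _ a c n E D C1 lam h hw hn hc hD
  refine sum_congr rfl fun g hg => ?_
  by_cases hd : Disjoint (pf (FF a c g)) (pf (derivative (a * c)))
  · obtain ⟨h1, h2, -⟩ := hSQF k a c g h hd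
    rw [natDegree_FF' hn hg hc] at h1
    simp only
    rw [CPL_sum _ (h1 ▸ hD), h1, h2]
    ring
  · simp only [hw.2.2.2.2.1 _ hd, zero_mul, mul_zero]

end Pool.Agent.P.MP_8be758_nt.L3
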