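import Pool.Agent.P.MP_8be758_nt.L3.If

/-! Step FIN. -/

namespace Pool.Agent.P.MP_8be758_nt.L3

open Polynomial Finset Filter
open Pool.Agent.P.MP_8be758_nt.C2 Pool.Agent.P.MP_8be758_nt.L2
open scoped Classical Topology

theorem p_FIN (hID : S_ID) (hSEL : S_SEL) (hT1 : S_T1) (hT3 : S_T3) (hMID : S_MID) :
    S_FIN := by
  intro hF ε hε
  obtain ⟨κ, n1, hκ, h1⟩ := hMID (ε / 4) (by positivity)
  obtain ⟨n2, h2⟩ := hT1 (ε / 4) (by positivity)
  obtain ⟨κ2, n3, hκ2, h3⟩ := hT3 hF κ (ε / 4) (by omega) (by positivity)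
  refine ⟨κ * (4 * κ2), n1 + n2 + n3 + 4 * κ, Nat.mul_pos (by omega) (by omega),
    fun k _ _ _ a c n hn H hz => ?_⟩
  have q0 := qq_pos (k := k)
  have e1 : 4 ≤ n / κ := (Nat.le_div_iff_mul_le (by omega)).2 (by omega)
  have e2 : 1000 * (n / κ) ≤ n :=
    le_trans (Nat.mul_le_mul_right _ hκ) (Nat.mul_div_le n κ)
  have e3 : n / (κ * (4 * κ2)) ≤ n / κ / 4 := by
    rw [← Nat.div_div_eq_div_mul]
    exact Nat.div_le_div_left (by omega) (by norm_num)
  have e4 : n / (κ * (4 * κ2)) ≤ n / κ2 :=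
    Nat.div_le_div_left (by nlinarith) (by omega)
  have z1 := hz.1
  have z2 := hz.2.1
  have z3 := hz.2.2.1
  have z5 := dg_pf_le H.2.2
  obtain ⟨lam, hl⟩ := hSEL k (pf a) (pf (derivative (a * c))) (n / κ) (fun _ => isPr_of_mem_pf)
    (fun _ => isPr_of_mem_pf) (by omega)
  have i := hID k a c n (n / κ) _ _ lam H hl hz (by omega) (by omega) (by omega)
  have a1 := abs_le.1 (h1 k a c n lam (by omega) H (hz.mono (by omega)) hl)
  have a2 := abs_le.1 (h2 k a c n (n / κ) _ lam (by omega) H (by omega) (by omega) hl)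
  have a3 := abs_le.1 (h3 k a c n _ lam (by omega) H (hz.mono e4) hl)
  rw [← sum_range_add_sum_Ico _ (show n - n / κ + 1 ≤ c.natDegree + 1 by omega),
    ← sum_Ico_consecutive _ (show n - n / κ + 1 ≤ c.natDegree - n + 2 * (n / κ) by omega)
      (show c.natDegree - n + 2 * (n / κ) ≤ c.natDegree + 1 by omega)] at i
  have p := mul_pos hε (pow_pos q0 n)
  have p' := mul_le_mul_of_nonneg_left (one_le_eu (s := pf a) fun _ => isPr_of_mem_pf) p.le
  rw [← i, abs_le]
  constructor <;> nlinarith [a1.1, a1.2, a2.1, a2.2, a3.1, a3.2]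

end Pool.Agent.P.MP_8be758_nt.L3
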