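import Pool.Agent.P.MP_8be758_nt.L3.If
import Pool.Agent.P.MP_8be758_nt.L2.TID

/-! Step ID. -/

namespace Pool.Agent.P.MP_8be758_nt.L3

open Polynomial Finset Filter
open Pool.Agent.P.MP_8be758_nt.C2 Pool.Agent.P.MP_8be758_nt.L2
open scoped Classical Topology

theorem p_ID (hSQF : S_SQF) :
    S_ID := by
  intro k _ _ _ a c n E δ C1 lam hH hW ⟨z1, z2, z3, z4⟩ hE hδ hn
  obtain ⟨w0, w1, -, -, w2, -⟩ := hW
  rw [card_filter, Nat.cast_sum, mul_sum]
  simp only [NN, NX, one_mul, mul_sum]
  rw [sum_comm]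
  refine sum_congr rfl fun g hg => ?_
  have hF := FF_ne_zero hH g
  have hN := natDegree_FF' hn hg z3
  have hS := hSQF k a c g hH
  have hle := dg_pf_le hF
  set A := pf (FF a c g) with hA
  have e1 : ∑ D ∈ range (c.natDegree + 1),
      ∑ d ∈ A.powerset.filter (fun d => dg d = D), ((n : ℝ) - D) * (wt lam A * sg d) =
      wt lam A * ∑ d ∈ A.powerset, ((n : ℝ) - dg d) * sg d := by
    rw [mul_sum, ← sum_fiberwise_of_maps_to (s := A.powerset) (g := dg)
      (t := range (c.natDegree + 1)) (fun d hd => mem_range.2 (by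
        have := dg_mono (mem_powerset.1 hd); omega))]
    refine sum_congr rfl fun D _ => sum_congr rfl fun d hd => ?_
    rw [(mem_filter.1 hd).2]; ring
  rw [e1]
  by_cases hd : Disjoint A (pf (derivative (a * c)))
  · obtain ⟨s1, -, s2⟩ := hS hd
    have hne : A ≠ ∅ := fun h => by rw [h, dg_empty] at s1; omega
    rw [ID_sum hne]
    by_cases hi : Irreducible (FF a c g)
    · obtain ⟨P, hP⟩ := card_eq_one.1 (s2.1 hi)
      have l0 : lam {P} = 0 := by
        by_contra h
        have := (mem_Sle.1 (w1 _ h)).2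
        rw [← hP] at this; omega
      have : wt lam A = 1 := by
        rw [hP, wt, ← insert_empty_eq, sum_powerset_insert (notMem_empty _)]
        simp [w0, l0]
      rw [if_pos (s2.1 hi), if_pos hi, this, s1, hN]; push_cast; ring
    · rw [if_neg (mt s2.2 hi), if_neg hi]; simp
  · rw [w2 A hd, if_neg, zero_mul, Nat.cast_zero, mul_zero]
    intro hi
    refine hd (disjoint_left.2 fun P h1 h2 => ?_)
    obtain ⟨p1, p2⟩ := (mem_pf hF).1 h1
    have d1 := natDegree_eq_natDegree (degree_eq_degree_of_associated (p1.2.associated_of_dvd hi p2))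
    have d2 := natDegree_le_of_dvd ((mem_pf hH.2.2).1 h2).2 hH.2.2
    omega

end Pool.Agent.P.MP_8be758_nt.L3
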