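import Pool.Agent.P.MP_8be758_nt.L3.If
import Pool.Agent.P.MP_8be758_nt.L2.TMID

/-! Step MID. -/

namespace Pool.Agent.P.MP_8be758_nt.L3

open Polynomial Finset Filter
open Pool.Agent.P.MP_8be758_nt.C2 Pool.Agent.P.MP_8be758_nt.L2
open scoped Classical Topology

theorem MID_mono {k : Type} [Field k] [Finite k] (a c : k[X]) (n : ℕ) (lam : Finset k[X] → ℝ)
    (D : ℕ) (hw : ∀ A, 0 ≤ wt lam A) (φ ψ : Finset k[X] → ℝ) (h : ∀ d, φ d ≤ ψ d) :
    NN a c n lam D φ ≤ NN a c n lam D ψ := by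
  unfold NN NX
  refine Finset.sum_le_sum fun g _ => ?_
  rw [one_mul, one_mul]
  exact mul_le_mul_of_nonneg_left (Finset.sum_le_sum fun d _ => h d) (hw _)

theorem MID_lin {k : Type} [Field k] [Finite k] (a c : k[X]) (n : ℕ) (lam : Finset k[X] → ℝ)
    (D : ℕ) (x y : ℝ) (φ ψ : Finset k[X] → ℝ) :
    NN a c n lam D (fun d => x * φ d + y * ψ d) =
      x * NN a c n lam D φ + y * NN a c n lam D ψ := by
  unfold NN NX
  rw [Finset.mul_sum, Finset.mul_sum, ← Finset.sum_add_distrib]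
  refine Finset.sum_congr rfl fun g _ => ?_
  rw [Finset.sum_add_distrib, ← Finset.mul_sum, ← Finset.mul_sum]
  ring

theorem MID_one {k : Type} [Field k] [Finite k] (a c : k[X]) (n : ℕ) (lam : Finset k[X] → ℝ)
    (D : ℕ) (hw : ∀ A, 0 ≤ wt lam A) (s B r1 r2 : ℝ) (o : Finset k[X] → ℝ) (hs : 1 ≤ s)
    (hr1 : 0 ≤ r1) (hr2 : 0 ≤ r2)
    (h1 : NN a c n lam D (fun _ => 1) ≤ B + r1)
    (h2 : NN a c n lam D (fun d => (s ^ 2 - o d) ^ 2) ≤ B * s ^ 2 + r1)
    (h3 : |NN a c n lam D (fun d => sg d * o d)| ≤ r2) :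
    |NN a c n lam D sg| ≤ B / s + r1 + r2 := by
  have hs0 : 0 < s := by linarith
  have e1 : s ^ 2 * NN a c n lam D sg = NN a c n lam D (fun d => sg d * o d) +
      NN a c n lam D (fun d => sg d * (s ^ 2 - o d)) := by
    have a1 := MID_lin a c n lam D 1 1 (fun d => sg d * o d) (fun d => sg d * (s ^ 2 - o d))
    have a2 := MID_lin a c n lam D (s ^ 2) 0 sg sg
    have a3 : (fun d : Finset k[X] => 1 * (sg d * o d) + 1 * (sg d * (s ^ 2 - o d))) =
        fun d => s ^ 2 * sg d + 0 * sg d := by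
      funext d
      ring
    rw [a3, a2] at a1
    linarith
  have u1 := MID_lin a c n lam D (1 / (2 * s)) (s / 2) (fun d => (s ^ 2 - o d) ^ 2) (fun _ => 1)
  have u2 := MID_lin a c n lam D (-(1 / (2 * s))) (-(s / 2))
    (fun d => (s ^ 2 - o d) ^ 2) (fun _ => 1)
  have v1 := MID_mono a c n lam D hw (fun d => sg d * (s ^ 2 - o d))
    (fun d => (1 / (2 * s)) * (s ^ 2 - o d) ^ 2 + (s / 2) * 1) (fun d =>
      (le_abs_self _).trans (MID_am s _ _ hs0 (abs_sg d)))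
  have v2 := MID_mono a c n lam D hw
    (fun d => -(1 / (2 * s)) * (s ^ 2 - o d) ^ 2 + -(s / 2) * 1)
    (fun d => sg d * (s ^ 2 - o d)) (fun d => by
      have := neg_abs_le (sg d * (s ^ 2 - o d))
      have := MID_am s _ (s ^ 2 - o d) hs0 (abs_sg d)
      linarith)
  rw [u1] at v1
  rw [u2] at v2
  have w0 : 0 < 1 / (2 * s) := by positivity
  have w1 := mul_le_mul_of_nonneg_left h2 w0.le
  have w2 := mul_le_mul_of_nonneg_left h1 (show 0 ≤ s / 2 by linarith)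
  have w3 : 1 / (2 * s) * (B * s ^ 2 + r1) + s / 2 * (B + r1) ≤ B * s + r1 * s ^ 2 := by
    have b1 : 1 / (2 * s) * (B * s ^ 2 + r1) = B * s / 2 + r1 * (1 / (2 * s)) := by
      field_simp
    have b2 : 1 / (2 * s) ≤ 1 / 2 :=
      one_div_le_one_div_of_le (by norm_num) (by linarith)
    have b3 := mul_le_mul_of_nonneg_left b2 hr1
    have b4 : 1 / 2 + s / 2 ≤ s ^ 2 := by nlinarith
    have b5 := mul_le_mul_of_nonneg_left b4 hr1
    rw [b1]
    nlinarith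
  have w4 : |NN a c n lam D (fun d => sg d * (s ^ 2 - o d))| ≤ B * s + r1 * s ^ 2 := by
    rw [abs_le]
    constructor <;> linarith
  have w5 : s ^ 2 * |NN a c n lam D sg| ≤ r2 + (B * s + r1 * s ^ 2) := by
    have : s ^ 2 * |NN a c n lam D sg| = |s ^ 2 * NN a c n lam D sg| := by
      rw [abs_mul, abs_of_nonneg (sq_nonneg s)]
    rw [this, e1]
    exact (abs_add_le _ _).trans (add_le_add h3 w4)
  have w6 : r2 + (B * s + r1 * s ^ 2) ≤ s ^ 2 * (B / s + r1 + r2) := by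
    have b1 : s ^ 2 * (B / s + r1 + r2) = B * s + r1 * s ^ 2 + s ^ 2 * r2 := by
      field_simp
    have b2 : 1 ≤ s ^ 2 := by nlinarith
    have b3 := mul_le_mul_of_nonneg_right b2 hr2
    rw [b1]
    linarith
  exact le_of_mul_le_mul_left (w5.trans w6) (by positivity)

theorem p_MID (hTK : S_TK) (hZB : S_ZB) (hLLB : S_LLB) :
    S_MID := by
  intro ε hε
  obtain ⟨κ, n1, hκ, hL⟩ := hLLB (max 1 ((24 * 256 / ε) ^ 2))
  obtain ⟨n2, hT⟩ := hTK
  obtain ⟨n3, hZ⟩ := hZB κ hκ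
  obtain ⟨n4, hN4⟩ := NEG 2 (κ * 4) 12 (ε / 4) (by omega) (by linarith)
  obtain ⟨n5, hN5⟩ := NEG 2 100 12 (ε / 4) (by omega) (by linarith)
  refine ⟨κ, n1 + n2 + n3 + n4 + n5 + κ, hκ, fun k _ _ _ a c n lam hn hH hz hW => ?_⟩
  have hκ0 : 0 < κ := by omega
  have hE : 1 ≤ n / κ := (Nat.le_div_iff_mul_le hκ0).2 (by omega)
  have hEn : n / κ ≤ n := Nat.div_le_self _ _
  have hE2 : 1000 * (n / κ) ≤ n :=
    le_trans (Nat.mul_le_mul_right _ hκ) (Nat.mul_div_le n κ)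
  have u0 := eu_one_pos (pf a)
  have u1 : 1 ≤ eu (-1) (pf a) := one_le_eu fun _ => isPr_of_mem_pf
  obtain ⟨C1, hC1⟩ : ∃ C1, C1 = eu 1 (pf a) * (256 / eu 1 (pf a) ^ 2) := ⟨_, rfl⟩
  have hC : 0 < C1 := by rw [hC1]; positivity
  have u2 : C1 ≤ 256 * eu (-1) (pf a) := by
    have := one_le_eu_mul (s := pf a) fun _ => isPr_of_mem_pf
    rw [show C1 = 256 / eu 1 (pf a) by rw [hC1]; field_simp, div_le_iff₀ u0]
    linarith
  have hL' := hL k n (by omega)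
  have hT' := fun D => hT k a c n (n / κ) _ lam D (by omega) hH hz hE2 (by positivity) hW
  have hZ' := fun D => hZ k a c n _ lam D (by omega) hH hz hW
  have z3 := hz.2.2.1
  have z4 := hz.2.2.2
  rw [← hC1] at hT'
  have h4 := hN4 n (by omega)
  have h5 := hN5 n (by omega)
  rw [← Nat.div_div_eq_div_mul] at h4
  obtain ⟨E, hEd⟩ : ∃ E, E = n / κ := ⟨_, rfl⟩
  rw [← hEd] at hE hEn hL' hT' hZ' h4 hW z4 ⊢
  have hL1 : 1 ≤ LL k n E := (le_max_left _ _).trans hL'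
  have hL2 : (24 * 256 / ε) ^ 2 ≤ LL k n E := (le_max_right _ _).trans hL'
  obtain ⟨s, hsd⟩ : ∃ s, s = Real.sqrt (LL k n E) := ⟨_, rfl⟩
  have hs2 : s ^ 2 = LL k n E := by rw [hsd]; exact Real.sq_sqrt (by linarith)
  have hs1 : 1 ≤ s := by rw [hsd]; exact Real.one_le_sqrt.2 hL1
  have hs3 : 24 * 256 / ε ≤ s := by rw [hsd]; exact Real.le_sqrt_of_sq_le hL2
  have hq : 0 < qq k ^ n := pow_pos qq_pos n
  have hE1 : (1 : ℝ) ≤ E := by exact_mod_cast (show 1 ≤ E by omega)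
  have hEn' : (E : ℝ) ≤ n := by exact_mod_cast hEn
  obtain ⟨M, hM⟩ : ∃ M, M = qq k ^ n * (C1 / (E : ℝ) ^ 2) / s + qq k ^ n / 2 ^ (n / 100) +
    qq k ^ n / 2 ^ (E / 4) := ⟨_, rfl⟩
  have hM0 : 0 ≤ M := by rw [hM]; positivity
  have hD : ∀ D ∈ Ico (n - E + 1) (c.natDegree - n + 2 * E),
      |((n : ℝ) - D) * NN a c n lam D sg| ≤ 3 * E * M := by
    intro D hD
    rw [Finset.mem_Ico] at hD
    have d1 : n ≤ D + E := by omega
    have d2 : D ≤ n + 3 * E := by omega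
    obtain ⟨t1, t2⟩ := hT' D d1 d2
    have t3 := hZ' D d1 d2
    rw [← hs2] at t2
    have t4 := MID_one a c n lam D hW.2.2.2.1 s _ _ _ (fun d => om n E d) hs1
      (by positivity) (by positivity) t1 t2 t3
    rw [← hM] at t4
    rw [abs_mul]
    refine mul_le_mul ?_ t4 (abs_nonneg _) (by positivity)
    have d1' : (n : ℝ) ≤ D + E := by exact_mod_cast d1
    have d2' : (D : ℝ) ≤ n + 3 * E := by exact_mod_cast d2
    rw [abs_le]
    constructor <;> linarith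
  have hc : ((Ico (n - E + 1) (c.natDegree - n + 2 * E)).card : ℝ) ≤ 4 * E := by
    rw [Nat.card_Ico]
    exact_mod_cast (show c.natDegree - n + 2 * E - (n - E + 1) ≤ 4 * E by omega)
  have hsum := (Finset.abs_sum_le_sum_abs _ _).trans (Finset.sum_le_card_nsmul _ _ _ hD)
  rw [nsmul_eq_mul] at hsum
  refine hsum.trans ((mul_le_mul_of_nonneg_right hc (by positivity)).trans ?_)
  have f0 : 4 * (E : ℝ) * (3 * E * M) = qq k ^ n * (12 * C1 / s +
      12 * (E : ℝ) ^ 2 / 2 ^ (n / 100) + 12 * (E : ℝ) ^ 2 / 2 ^ (E / 4)) := by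
    rw [hM]
    field_simp
    ring
  have f1 : 12 * C1 / s ≤ ε * eu (-1) (pf a) / 2 := by
    rw [div_le_iff₀ (by linarith)]
    rw [div_le_iff₀ hε] at hs3
    nlinarith [mul_le_mul_of_nonneg_left hs3 (zero_le_one.trans u1)]
  have f5 := mul_le_mul_of_nonneg_left u1 hε.le
  have f2 : (E : ℝ) ^ 2 ≤ ((n : ℝ) + 1) ^ 2 := by
    apply pow_le_pow_left₀ (by linarith)
    linarith
  have f3 : 12 * (E : ℝ) ^ 2 / 2 ^ (n / 100) ≤ ε / 4 := by
    rw [div_le_iff₀ (by positivity)]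
    linarith
  have f4 : 12 * (E : ℝ) ^ 2 / 2 ^ (E / 4) ≤ ε / 4 := by
    rw [div_le_iff₀ (by positivity)]
    linarith
  rw [f0, mul_comm (ε * _)]
  exact mul_le_mul_of_nonneg_left (by linarith) hq.le

end Pool.Agent.P.MP_8be758_nt.L3
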