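import Pool.Agent.P.MP_8be758_nt.L3.If
import Pool.Agent.P.MP_8be758_nt.L2.TNR1

/-! Step NR1. -/

namespace Pool.Agent.P.MP_8be758_nt.L3

open Polynomial Finset Filter
open Pool.Agent.P.MP_8be758_nt.C2 Pool.Agent.P.MP_8be758_nt.L2
open scoped Classical Topology

theorem NR1_one {k : Type} [Field k] [Finite k] (a c : k[X]) (n D : ℕ) {e e1 r : Finset k[X]}
    (he : ∀ P ∈ e, IsPr P) (hr : ∀ P ∈ r, IsPr P) (h1 : e1 ⊆ e) (h2 : Disjoint e (pf a))
    (h3 : Disjoint r (pf a)) (h4 : Disjoint r e) :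
    ∑ d ∈ Sc (pf a ∪ e) (D + dg r),
        (if r ⊆ e1 ∪ d then 1 else 0) * cx a c n (fun _ => 1) (e1 ∪ d ∪ e) =
      qq k ^ n / qq k ^ dg e / qq k ^ dg r * xs 1 (pf a ∪ e ∪ r) D +
        ∑ S ∈ (Sc (pf a) (D + dg (e ∪ r))).filter (fun S => e ∪ r ⊆ S), rr a c n S := by
  have hq := qq_pos (k := k)
  rw [NR1_bij D _ (fun P hP => (mem_union.1 hP).elim (he P) (hr P))
    (disjoint_union_left.2 ⟨h2, h3⟩), ← union_assoc, xs, sum_div, mul_sum, ← sum_add_distrib]
  trans ∑ d ∈ (Sc (pf a ∪ e) (D + dg r)).filter (fun d => r ⊆ d), cx a c n (fun _ => 1) (d ∪ e)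
  · rw [sum_filter]
    refine sum_congr rfl fun d _ => ?_
    have e1' : r ⊆ e1 ∪ d ↔ r ⊆ d := ⟨fun h P hP => (mem_union.1 (h hP)).resolve_left
      fun h5 => disjoint_left.1 h4 hP (h1 h5), fun h => h.trans subset_union_right⟩
    rw [union_comm e1, union_assoc, union_eq_right.2 h1, union_comm d e1, ite_mul, one_mul, zero_mul]
    exact if_congr e1' rfl rfl
  rw [NR1_bij D _ hr (disjoint_union_right.2 ⟨h3, h4⟩)]
  refine sum_congr rfl fun d hd => ?_
  obtain ⟨-, h5, h6⟩ := mem_Sc.1 hd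
  rw [union_assoc, disjoint_union_right] at h6
  rw [rr, dg_union h6.2, dg_union h4.symm, h5, union_assoc, union_comm r e, pow_add, pow_add]
  field_simp
  ring

theorem p_NR1 (hXP : S_XP) (hSPL : S_SPL) :
    S_NR1 := by
  intro k _ _ _ a c n E D lam r B1 B2 hy hl hr hra hD hB1 hB2 H1 H2
  have hq := qq_pos (k := k)
  have hG : GG (pf a) E lam = ∑ e ∈ (Sle k E).filter (fun e => Disjoint e (pf a)),
      lam e * (2 ^ e.card * (eu 1 e / qq k ^ dg e)) := by
    rw [GG, sum_filter]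
    refine sum_congr rfl fun e _ => ?_
    split_ifs with h
    · rw [← NR1_eu, ← prod_const, ← prod_mul_distrib]
      exact congrArg _ (prod_congr rfl fun P hP => if_neg (disjoint_left.1 h hP))
    · obtain ⟨P, h1, h2⟩ := not_disjoint_iff.1 h
      rw [prod_eq_zero h1 (show gp (pf a) P = 0 from if_pos h2), mul_zero]
  rw [NN, hXP k a c n E D lam _ _ hy hl, hG, mul_sum, sum_mul, ← sum_sub_distrib, mul_sum, mul_sum,
    ← sum_add_distrib]
  refine (abs_sum_le_sum_abs _ _).trans ((sum_le_sum fun e he => ?_).trans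
    (sum_le_sum_of_subset_of_nonneg (filter_subset (fun e => Disjoint e (pf a)) _)
      fun _ _ _ => by positivity))
  obtain ⟨h0, h2⟩ := mem_filter.1 he
  obtain ⟨h1, hE⟩ := mem_Sle.1 h0
  have h4 : Disjoint r e := disjoint_left.2 fun P hP hP' => by
    have := natDegree_le_dg hP'
    have := (hr P hP).2
    omega
  rw [hSPL k (pf a) e D _ h1 h2, filter_true_of_mem fun e1 h => by
    have := dg_mono (mem_powerset.1 h)
    omega]
  have key : ∀ e1 ∈ e.powerset, |∑ d ∈ Sc (pf a ∪ e) (D - dg e1),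
      (if r ⊆ e1 ∪ d then 1 else 0) * cx a c n (fun _ => 1) (e1 ∪ d ∪ e) -
      qq k ^ n / qq k ^ dg e / qq k ^ dg r * ((1 - 1 / qq k) * eu 1 (pf a ∪ e ∪ r))| ≤
      qq k ^ n / qq k ^ dg e * (4 ^ ((pf a).card + r.card) * 4 ^ e.card * B1) + B2 :=
    fun e1 h => by
      have h5 := dg_mono (mem_powerset.1 h)
      obtain ⟨D', hD'⟩ : ∃ D', D - dg e1 = D' + dg r := ⟨D - dg e1 - dg r, by omega⟩
      rw [hD', NR1_one a c n D' h1 (fun P hP => (hr P hP).1) (mem_powerset.1 h) h2 hra h4,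
        add_sub_right_comm, ← mul_sub]
      refine (abs_add_le _ _).trans (add_le_add ?_ (H2 _ _
        (fun P hP => (mem_union.1 hP).elim (h1 P) fun h => (hr P h).1) ?_))
      · rw [abs_mul, abs_of_nonneg (by positivity)]
        refine mul_le_mul (div_le_self (by positivity) (one_le_pow₀ one_le_qq))
          ((H1 _ _ (fun P hP => ?_) (by omega)).trans ?_) (abs_nonneg _) (by positivity)
        · simp only [mem_union] at hP
          exact hP.elim (fun h => h.elim isPr_of_mem_pf (h1 P)) fun h => (hr P h).1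
        · have := card_union_le (pf a ∪ e) r
          have := card_union_le (pf a) e
          rw [← pow_add]
          exact mul_le_mul_of_nonneg_right (pow_le_pow_right₀ (by norm_num) (by omega)) hB1
      · rw [dg_union h4.symm]
        omega
  have h6 := (abs_sum_le_sum_abs _ _).trans (sum_le_sum key)
  rw [sum_sub_distrib, sum_const, sum_const, card_powerset, nsmul_eq_mul, nsmul_eq_mul,
    eu_union _ (disjoint_union_left.2 ⟨hra.symm, h4.symm⟩), eu_union _ h2.symm] at h6
  have h7 := mul_le_mul_of_nonneg_left h6 (abs_nonneg (lam e))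
  rw [← abs_mul, mul_sub] at h7
  rw [NR1_eu, show (8 : ℝ) = 2 * 4 by norm_num, mul_pow]
  refine (le_of_eq ?_).trans (h7.trans_eq ?_)
  · congr 1
    push_cast
    ring
  · push_cast
    ring

end Pool.Agent.P.MP_8be758_nt.L3
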