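import Pool.Agent.P.MP_8be758_nt.L3.If

/-! Step PARM. -/

namespace Pool.Agent.P.MP_8be758_nt.L3

open Polynomial Finset Filter
open Pool.Agent.P.MP_8be758_nt.C2 Pool.Agent.P.MP_8be758_nt.L2
open scoped Classical Topology

theorem p_PARM :
    S_PARM := by
  intro κ hκ
  obtain ⟨p, hp⟩ : ∃ p, p = 2 ^ (κ + 1 + 1) := ⟨_, rfl⟩
  have hp1 : 4 * κ ≤ p := by
    have := Nat.lt_two_pow_self (n := κ)
    rw [hp, pow_succ, pow_succ]; omega
  have hp4 : 4 ≤ p := by omega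
  refine ⟨κ + 1, 2 * p * (4 * p * (κ + 1 + 1) + 6) * p * 2, 2 * p * (6 + 16 * p),
    Nat.succ_le_of_lt (by positivity), fun n hn => ?_⟩
  obtain ⟨y, hy⟩ : ∃ y, y = n / (2 * p) := ⟨_, rfl⟩
  obtain ⟨t, ht⟩ : ∃ t, t = y / (4 * p * (κ + 1 + 1) + 6) := ⟨_, rfl⟩
  have h0 : n / (2 * p * (4 * p * (κ + 1 + 1) + 6) * p * 2) = t / p / 2 := by
    rw [ht, hy, Nat.div_div_eq_div_mul, Nat.div_div_eq_div_mul, Nat.div_div_eq_div_mul]
    congr 1
    ring
  have h0' := Nat.div_le_self t p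
  rw [h0, ← hp]
  have h1 : 6 + 16 * p ≤ y := by
    rw [hy, Nat.le_div_iff_mul_le (by omega)]; linarith
  have h2 : 2 * p * y + n % (2 * p) = n := by rw [hy]; exact Nat.div_add_mod n (2 * p)
  have h3 : n % (2 * p) < 2 * p := Nat.mod_lt _ (by omega)
  generalize n % (2 * p) = r at h2 h3
  have h4 : t * (4 * p * (κ + 1 + 1) + 6) ≤ y := by rw [ht]; exact Nat.div_mul_le_self _ _
  obtain ⟨u, hu⟩ : ∃ u, u = (κ + 1 + 1) * t := ⟨_, rfl⟩
  have h5 : 4 * (p * u) + 6 * t ≤ y := by rw [hu]; nlinarith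
  have h6 : 4 * u ≤ p * u := Nat.mul_le_mul_right _ hp4
  have h7 : 4 * y ≤ p * y := Nat.mul_le_mul_right _ hp4
  have h8 : 4 * κ * y ≤ p * y := Nat.mul_le_mul_right _ hp1
  obtain ⟨L, hL⟩ : ∃ L, y = L + 2 := ⟨y - 2, by omega⟩
  refine ⟨2 * y, L, t, ?_, by omega, by omega, ?_, by omega, fun dV ρ hV hρ hev => ?_⟩
  · refine le_trans (show _ ≤ 5 * y by omega) ?_
    rw [Nat.le_div_iff_mul_le hκ]
    nlinarith
  · refine lt_of_lt_of_le (show _ < y by omega) ?_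
    nlinarith
  · have h9 : 3 + 2 * dV + 8 * p ≤ y := by omega
    have eu : ((κ + 1 + 1 : ℕ) : ℤ) * t = u := by rw [hu]; push_cast; ring
    have ep : (2 : ℤ) ^ (κ + 1 + 1) = p := by rw [hp]; push_cast; ring
    unfold Ok
    rw [eu, ep, ← hu]
    subst hL
    clear h0 h0' hV h1
    zify at h9 h2 h3 h5 h6 h7 hρ hp4
    have hr : (0 : ℤ) ≤ r := by positivity
    have hu0 : (0 : ℤ) ≤ u := by positivity
    refine ⟨by omega, by push_cast; omega, by push_cast; nlinarith, by push_cast; nlinarith,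
      by push_cast; nlinarith, hev⟩

end Pool.Agent.P.MP_8be758_nt.L3
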