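import Pool.Agent.P.MP_8be758_nt.L3.If
import Pool.Agent.P.MP_8be758_nt.L2.TPH

/-! Step PH. -/

namespace Pool.Agent.P.MP_8be758_nt.L3

open Polynomial Finset Filter
open Pool.Agent.P.MP_8be758_nt.C2 Pool.Agent.P.MP_8be758_nt.L2
open scoped Classical Topology

theorem p_PH (hSQ2 : S_SQ2) :
    S_PH := by
  intro k _ _ _ a c w v h B A0 t ha hB hac hco
  have h2 : (2 : k[X]) = 0 := CharTwo.two_eq_zero
  by_cases hex : ∃ e0, a ∣ (A0 + t * B) * e0 - 1
  swap
  · refine ⟨0, by simp, fun A e ν hA he _ _ => (hex ⟨e, ?_⟩).elim⟩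
    have := dvd_sub ((Dvd.intro_left B rfl).trans he) (hA.mul_right e)
    convert this using 1
    ring
  obtain ⟨e0, he0⟩ := hex
  obtain ⟨u0, s, hu⟩ := hco
  refine ⟨psi (res a (h * (u0 * (w + v * (A0 * t + X * B) * e0)))), (abs_psi _).le, ?_⟩
  intro A e ν hA ⟨z', he⟩ hF d2
  have e1 : e * A + (a * z' + t * e) * B = 1 := by linear_combination he + (B * a * z') * h2
  have hsq := (hSQ2 k A B).2 ⟨_, _, e1⟩
  have hM : A ^ 2 + X * B ^ 2 ≠ 0 := hsq.ne_zero
  obtain ⟨τ, hτ⟩ : ∃ τ, τ = A * (a * z' + t * e) + X * B * e := ⟨_, rfl⟩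
  obtain ⟨c', hc'⟩ : ∃ c', c' = a * z' + t * e := ⟨_, rfl⟩
  have hτ' : τ = A * c' + X * B * e := by rw [hτ, hc']
  rw [← hc'] at e1
  have e2 : τ ^ 2 + X = (A ^ 2 + X * B ^ 2) * (c' ^ 2 + X * e ^ 2) := by
    rw [hτ']
    linear_combination (-X * (e * A + c' * B + 1)) * e1 + (2 * X * A * B * c' * e) * h2
  have e3 : τ * B = e * (A ^ 2 + X * B ^ 2) + A := by
    rw [hτ']
    linear_combination A * e1 - (e * A ^ 2) * h2
  obtain ⟨y, hy⟩ : A ^ 2 + X * B ^ 2 ∣ a * ν + w + v * τ := by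
    rw [← hsq.dvd_pow_iff_dvd two_ne_zero]
    have : (a * ν + w + v * τ) ^ 2 = a * FF a c ν + v ^ 2 * (τ ^ 2 + X) := by
      unfold FF
      linear_combination (-1) * hac + (a * ν * w + a * ν * v * τ + w * v * τ - X * v ^ 2) * h2
    rw [this, e2]
    exact dvd_add (hF.mul_left a) ((Dvd.intro _ rfl).mul_left _)
  have hc := PH_cong hA he he0 hu (hτ ▸ hy)
  generalize A ^ 2 + X * B ^ 2 = M at *
  have n2 : M.natDegree ≤ (B * a * M).natDegree := natDegree_le_of_dvd (Dvd.intro_left _ rfl)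
    (mul_ne_zero (mul_ne_zero hB ha) hM)
  have r2 : res (M * a) (h * v * τ) = res (B * a) (h * v * e) := by
    have r3 : res (B * a * M) (h * v * A) = 0 := res_eq_zero (by
      have := natDegree_mul_le (p := h) (q := v)
      have := natDegree_mul_le (p := h * v) (q := A)
      omega)
    rw [← res_mul_mul _ _ hB, show M * a * B = B * a * M by ring,
      show h * v * τ * B = h * v * e * M + h * v * A by linear_combination h * v * e3, res_add,
      res_mul_mul _ _ hM, r3, add_zero]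
  have r4 : res (M * a) (h * y * M) = res a (h * (u0 * (w + v * (A0 * t + X * B) * e0))) := by
    rw [mul_comm M a, res_mul_mul _ _ hM]
    exact res_congr (by rw [← mul_sub]; exact hc.mul_left h)
  rw [← res_mul_mul M _ ha, show h * ν * a = h * y * M + (h * w + h * v * τ) by
    linear_combination h * hy - (h * w + h * v * τ) * h2, res_add, res_add, r2, r4, psi_add,
    psi_add]
  exact (mul_assoc _ _ _).symm

end Pool.Agent.P.MP_8be758_nt.L3
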