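import Pool.Agent.P.MP_8be758_nt.L3.If

/-! Step RF. -/

namespace Pool.Agent.P.MP_8be758_nt.L3

open Polynomial Finset Filter
open Pool.Agent.P.MP_8be758_nt.C2 Pool.Agent.P.MP_8be758_nt.L2
open scoped Classical Topology

theorem RF_card {k : Type} [Field k] [Finite k] {M y ν : k[X]} {n : ℕ} (hn : n ≤ M.natDegree)
    (hy : y ∈ low k M.natDegree) (hd : M ∣ y - ν) :
    ((Gx M ν n).card : ℝ) = if y ∈ low k n then 1 else 0 := by
  have key : ∀ g ∈ Gx M ν n, g = y := by
    intro g hg
    obtain ⟨h1, h3⟩ := mem_Gx.1 hg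
    exact sub_eq_zero.1 (eq_zero_of_mem_low (sub_mem_low (low_mono hn h1) hy)
      (by rw [show g - y = g - ν - (y - ν) by ring]; exact dvd_sub h3 hd) le_rfl)
  split_ifs with h
  · have e : Gx M ν n = {y} := eq_singleton_iff_unique_mem.2 ⟨mem_Gx.2 ⟨h, hd⟩, key⟩
    rw [e, card_singleton, Nat.cast_one]
  · rw [eq_empty_of_forall_notMem fun g hg => h (key g hg ▸ (mem_Gx.1 hg).1), card_empty,
      Nat.cast_zero]

theorem p_RF (hROOT : S_ROOT) (hORTH : S_ORTH) :
    S_RF := by
  intro k _ _ _ a c n S ha hS hD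
  have hq := qq_pos (k := k)
  have hm := monic_pr hS
  have hd := natDegree_pr hS
  have e0 : rr a c n S = ((Gx (pr S) (rt a c (pr S)) n).card : ℝ) - qq k ^ n / qq k ^ dg S := by
    have e : (low k n).filter (fun g => pr S ∣ FF a c g) = Gx (pr S) (rt a c (pr S)) n :=
      filter_congr fun g _ => hROOT k a c _ (squarefree_pr hS) ((coprime_pr_iff ha hS).2 hD) g
    rw [rr, cx, e, sum_const, nsmul_eq_mul, mul_one]
  have e1 : dg S ≤ n → rr a c n S = 0 := fun h => by
    rw [e0, card_Gx hm.ne_zero _ (hd ▸ h), hd, sub_self]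
  have hy := mod_mem_low hm.ne_zero (rt a c (pr S))
  have hv : pr S ∣ rt a c (pr S) % pr S - rt a c (pr S) := by
    rw [EuclideanDomain.mod_eq_sub_mul_div]
    exact ⟨-(rt a c (pr S) / pr S), by ring⟩
  have e2 : n < dg S → qq k ^ n / qq k ^ dg S = 1 / qq k ^ (dg S - n) := fun h => by
    rw [div_eq_div_iff (by positivity) (by positivity), one_mul, ← pow_add]
    exact congrArg _ (by omega)
  refine ⟨e1, ?_, fun h => ?_⟩
  · rcases le_or_gt (dg S) n with h | h
    · rw [e1 h, abs_zero]; exact zero_le_one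
    have b0 : 0 < 1 / qq k ^ (dg S - n) := by positivity
    have b1 : 1 / qq k ^ (dg S - n) ≤ 1 := (div_le_one (by positivity)).2 (one_le_pow₀ one_le_qq)
    rw [e0, RF_card (hd ▸ h.le) hy hv, e2 h, abs_le]
    split_ifs <;> constructor <;> linarith
  have o := hORTH k (pr S) _ (dg S - n) hm.ne_zero (by omega) hy
  have e3 : ∀ h' ∈ (low k (dg S - n)).erase 0,
      psi (res (pr S) (h' * (rt a c (pr S) % pr S))) = psi (res (pr S) (h' * rt a c (pr S))) :=
    fun h' _ => congrArg _ (res_congr (by rw [← mul_sub]; exact hv.mul_left _))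
  rw [← add_sum_erase _ _ (zero_mem_low _), zero_mul, res_zero, psi_zero, sum_congr rfl e3, hd,
    show dg S - (dg S - n) = n by omega] at o
  rw [e0, RF_card (hd ▸ h.le) hy hv, e2 h, eq_sub_of_add_eq' o]
  split_ifs
  · rw [sub_div, div_self (by positivity)]
  · rw [zero_sub, zero_sub, neg_div]

end Pool.Agent.P.MP_8be758_nt.L3
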