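import Pool.Agent.P.MP_8be758_nt.L3.If
import Pool.Agent.P.MP_8be758_nt.L2.TSEL

/-! Step SEL. -/

namespace Pool.Agent.P.MP_8be758_nt.L3

open Polynomial Finset Filter
open Pool.Agent.P.MP_8be758_nt.C2 Pool.Agent.P.MP_8be758_nt.L2
open scoped Classical Topology

theorem p_SEL (hSEL0 : S_SEL0) (hGLB : S_GLB) :
    S_SEL := by
  intro k _ _ pa pv E ha hv hE
  have hG := hGLB k pa ha
  have e0 := eu_one_pos pa
  obtain ⟨c, hc'⟩ : ∃ c, c = eu 1 pa ^ 2 / 16 := ⟨_, rfl⟩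
  have hc : 0 < c := by rw [hc']; positivity
  rw [show 256 / eu 1 pa ^ 2 = 16 / c by rw [hc']; field_simp; norm_num]
  rw [← hc'] at hG
  obtain ⟨R, hR⟩ : ∃ R, R = (E - dg pv) / 2 := ⟨_, rfl⟩
  have hg : ∀ P ∈ Pr k E, 0 ≤ gp pa P ∧ gp pa P ≤ 2 / 3 := fun P hP => by
    have h1 : (2 : ℝ) ≤ qq k ^ P.natDegree :=
      two_le_qq.trans (le_self_pow₀ one_le_qq (by have := (mem_Pr.1 hP).1.pos; omega))
    unfold gp
    split_ifs
    · norm_num
    · exact ⟨by positivity, div_le_div_of_nonneg_left (by norm_num) (by norm_num) (by linarith)⟩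
  obtain ⟨ρ, r0, r1, r2, r3⟩ := hSEL0 k (Pr k E) (gp pa) R hg
  have hw : ∀ A, wt (SEL_cv (SEL_cv ρ ρ) fun S => if S ⊆ pv then sg S else 0) A =
      wt ρ A ^ 2 * if Disjoint A pv then 1 else 0 := fun A => by rw [SEL_wt, SEL_wt, SEL_m, sq]
  have hs : ∀ S, SEL_cv (SEL_cv ρ ρ) (fun S => if S ⊆ pv then sg S else 0) S ≠ 0 →
      S ∈ Sle k E := fun S h => by
    obtain ⟨U, V, rfl, h1, h2⟩ := SEL_sup h
    obtain ⟨U, W, rfl, h3, h4⟩ := SEL_sup h1
    have h5 : V ⊆ pv := by_contra fun e => h2 (if_neg e)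
    refine mem_Sle.2 ⟨fun P hP => ?_, ?_⟩
    · rcases mem_union.1 hP with hP | hP
      · exact (mem_Pr.1 (union_subset (r1 U h3).1 (r1 W h4).1 hP)).1
      · exact hv P (h5 hP)
    · have := dg_union_le (U ∪ W) V
      have := dg_union_le U W
      have := (r1 U h3).2
      have := (r1 W h4).2
      have := dg_mono h5
      omega
  refine ⟨_, ?_, hs, SEL_abs (c := 15) (d := 1) (by norm_num) (SEL_abs (by norm_num) r2 r2)
    fun S => ?_, fun A => ?_, fun A h => by rw [hw, if_neg h, mul_zero], ?_⟩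
  · simpa [wt, r0] using hw ∅
  · split_ifs <;> simp [abs_sg]
  · rw [hw]
    split_ifs <;> simp [sq_nonneg]
  · have e1 : (Pr k E).powerset.filter (fun S => dg S ≤ R) = Sle k R := by
      ext S
      rw [mem_filter, mem_powerset, mem_Sle]
      exact ⟨fun h => ⟨fun P hP => (mem_Pr.1 (h.1 hP)).1, h.2⟩, fun h => ⟨fun P hP =>
        mem_Pr.2 ⟨h.1 P hP, by have := natDegree_le_dg hP; omega⟩, h.2⟩⟩
    have h1 := hG R
    have h2 : 0 < c * ((R : ℝ) + 1) ^ 2 := by positivity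
    rw [e1, ← eq_div_iff (h2.trans_le h1).ne'] at r3
    refine (sum_subset (filter_subset _ _ : Sle k E ⊆ (Pr k E).powerset) fun S _ h =>
      mul_eq_zero_of_left (not_not.1 fun e => h (hs S e)) _).trans_le ?_
    rw [SEL_mean]
    refine (sum_le_sum fun A hA => mul_le_mul_of_nonneg_left (show _ ≤ wt ρ A ^ 2 by
      rw [hw]; split_ifs <;> simp [sq_nonneg]) (mul_nonneg (prod_nonneg fun P hP =>
        (hg P (mem_powerset.1 hA hP)).1) (prod_nonneg fun P hP => by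
        linarith [(hg P (mem_sdiff.1 hP).1).2]))).trans ?_
    have h3 : (E : ℝ) ≤ 4 * (R + 1) := by exact_mod_cast (by omega : E ≤ 4 * (R + 1))
    have h4 : (0 : ℝ) < E := by exact_mod_cast (by omega : 0 < E)
    rw [r3]
    refine (one_div_le_one_div_of_le h2 h1).trans ?_
    rw [div_div, div_le_div_iff₀ h2 (by positivity)]
    nlinarith [mul_le_mul_of_nonneg_left (pow_le_pow_left₀ h4.le h3 2) hc.le]

end Pool.Agent.P.MP_8be758_nt.L3
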