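import Pool.Agent.P.MP_8be758_nt.L3.If
import Pool.Agent.P.MP_8be758_nt.L2.TT1

/-! Step T1. -/

namespace Pool.Agent.P.MP_8be758_nt.L3

open Polynomial Finset Filter
open Pool.Agent.P.MP_8be758_nt.C2 Pool.Agent.P.MP_8be758_nt.L2
open scoped Classical Topology

theorem p_T1 (hT1A : S_T1A) (hLAM : S_LAM) :
    S_T1 := by
  intro ε hε
  obtain ⟨n0, h0⟩ := NEG (248 + 1) 16 (3 ^ 248) ε (by norm_num) hε
  refine ⟨n0 + 100, fun k _ _ _ a c n E C1 lam hn hH ha hE hW => ?_⟩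
  have h1 := hT1A k a c n E lam hH hW.1 hW.2.1 (by omega)
  have h2 := (hLAM k E lam hW.2.2.1).1
  have hq := qq_pos (k := k)
  have s1 : (1 : ℝ) ≤ √(qq k) := Real.one_le_sqrt.2 one_le_qq
  have s2 : (2 : ℝ) ^ (n / 4) ≤ √(qq k) ^ (n - 2 * E) :=
    calc (2 : ℝ) ^ (n / 4) ≤ qq k ^ (n / 4) := two_pow_le_qq _
      _ = √(qq k) ^ (2 * (n / 4)) := by rw [pow_mul, Real.sq_sqrt hq.le]
      _ ≤ _ := pow_le_pow_right₀ s1 (by omega)
  have s3 : 4 ^ (pf a).card * 3 ^ 248 * ((n : ℝ) + 1) ^ (248 + 1) ≤ ε * 2 ^ (n / 4) :=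
    calc _ = 4 ^ (pf a).card * (3 ^ 248 * ((n : ℝ) + 1) ^ (248 + 1)) := mul_assoc _ _ _
      _ ≤ 2 ^ (2 * a.natDegree) * (ε * 2 ^ (n / 16)) :=
        mul_le_mul (four_pow_pf_le hH.1 le_rfl) (h0 n (by omega)) (by positivity) (by positivity)
      _ = ε * 2 ^ (2 * a.natDegree + n / 16) := by rw [pow_add]; ring
      _ ≤ _ := mul_le_mul_of_nonneg_left (pow_le_pow_right₀ (by norm_num) (by omega)) hε.le
  have h3 := T1_num (e := (E : ℝ)) (n := (n : ℝ)) 248 (Nat.cast_nonneg _)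
    (by exact_mod_cast (by omega : E ≤ n)) (by positivity) (by positivity) s2 h2 s3
  refine h1.trans ?_
  rw [mul_assoc, mul_comm ε]
  exact mul_le_mul_of_nonneg_left h3 (by positivity)

end Pool.Agent.P.MP_8be758_nt.L3
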