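import Pool.Agent.P.MP_8be758_nt.L3.If
import Pool.Agent.P.MP_8be758_nt.L2.TT1A

/-! Step T1A. -/

namespace Pool.Agent.P.MP_8be758_nt.L3

open Polynomial Finset Filter
open Pool.Agent.P.MP_8be758_nt.C2 Pool.Agent.P.MP_8be758_nt.L2
open scoped Classical Topology

theorem T1A_one (hRF : S_RF) (hSPL : S_SPL) {k : Type} [Field k] [Finite k] [CharP k 2]
    {a : k[X]} (c : k[X]) {n D : ℕ} {e : Finset k[X]} (ha : a ≠ 0) (he : ∀ P ∈ e, IsPr P)
    (hd : Disjoint e (pf a)) (hD : D + dg e ≤ n) :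
    ∑ d ∈ Sc (pf a) D, sg d * cx a c n (fun _ => 1) (d ∪ e) =
      qq k ^ n / qq k ^ dg e * ∑ e1 ∈ e.powerset,
        if dg e1 ≤ D then sg e1 * xs (-1) (pf a ∪ e) (D - dg e1) else 0 := by
  have hq := qq_pos (k := k)
  rw [hSPL k (pf a) e D _ he hd, ← sum_filter, mul_sum]
  refine sum_congr rfl fun e1 h1 => ?_
  have h2 := mem_powerset.1 (mem_filter.1 h1).1
  rw [xs, sum_div, mul_sum, mul_sum]
  refine sum_congr rfl fun d h3 => ?_
  obtain ⟨h4, h5, h6⟩ := mem_Sc.1 h3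
  obtain ⟨h7, h8⟩ := disjoint_union_right.1 h6
  have e2 : e1 ∪ d ∪ e = d ∪ e := by
    rw [union_comm e1 d, union_assoc, union_eq_right.2 h2]
  have e3 : dg (d ∪ e) = D - dg e1 + dg e := by rw [dg_union h8, h5]
  have h9 := (hRF k a c n (d ∪ e) ha (fun P hP => (mem_union.1 hP).elim (h4 P) (he P))
    (disjoint_union_left.2 ⟨h7, hd⟩)).1 (by omega)
  rw [rr, sub_eq_zero] at h9
  rw [e2, h9, e3, sg_union (h8.symm.mono_left h2), pow_add]
  unfold sg
  field_simp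

theorem p_T1A (hXP : S_XP) (hRF : S_RF) (hSPL : S_SPL) (hXC : S_XC) :
    S_T1A := by
  intro k _ _ _ a c n E lam hH h0 hl hn
  have hq := qq_pos (k := k)
  set F := (Sle k E).filter (fun e => Disjoint e (pf a)) with hF
  have e1 : ∑ D ∈ range (n - E + 1), ((n : ℝ) - D) * NN a c n lam D sg =
      ∑ e ∈ F, lam e * (qq k ^ n / qq k ^ dg e) * ∑ D ∈ range (n - E + 1), ((n : ℝ) - D) *
        ∑ e1 ∈ e.powerset,
          if dg e1 ≤ D then sg e1 * xs (-1) (pf a ∪ e) (D - dg e1) else 0 := by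
    simp only [mul_sum (range (n - E + 1))]
    rw [sum_comm]
    refine sum_congr rfl fun D hD => ?_
    rw [NN, hXP k a c n E D lam sg _ hH hl, mul_sum]
    refine sum_congr rfl fun e he => ?_
    obtain ⟨h1, h2⟩ := mem_filter.1 he
    obtain ⟨h3, h4⟩ := mem_Sle.1 h1
    have h5 := mem_range.1 hD
    rw [T1A_one hRF hSPL c hH.1 h3 h2 (by omega)]
    ring
  have e2 : eu (-1) (pf a) * qq k ^ n =
      ∑ e ∈ F, lam e * (qq k ^ n / qq k ^ dg e) * if e = ∅ then eu (-1) (pf a) else 0 := by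
    have h1 : (∅ : Finset k[X]) ∈ F :=
      mem_filter.2 ⟨mem_Sle.2 ⟨by simp, by simp [dg_empty]⟩, disjoint_empty_left _⟩
    simp only [mul_ite, mul_zero]
    rw [sum_ite_eq' F, if_pos h1, h0, dg_empty]
    ring
  rw [e1, e2, ← sum_sub_distrib, mul_sum]
  refine (abs_sum_le_sum_abs _ _).trans (le_trans (sum_le_sum fun e he => ?_)
    (sum_le_sum_of_subset_of_nonneg (filter_subset _ _) fun _ _ _ => by positivity))
  obtain ⟨h3, h4⟩ := mem_Sle.1 (mem_filter.1 he).1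
  rw [← mul_sub, abs_mul, abs_mul, abs_of_pos (by positivity : 0 < qq k ^ n / qq k ^ dg e)]
  refine (mul_le_mul_of_nonneg_left (T1A_two hXC (fun P => isPr_of_mem_pf) h3 h4 hn)
    (by positivity)).trans_eq ?_
  ring

end Pool.Agent.P.MP_8be758_nt.L3
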