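import Pool.Agent.P.MP_8be758_nt.L3.If
import Pool.Agent.P.MP_8be758_nt.L2.TTK

/-! Step TK. -/

namespace Pool.Agent.P.MP_8be758_nt.L3

open Polynomial Finset Filter
open Pool.Agent.P.MP_8be758_nt.C2 Pool.Agent.P.MP_8be758_nt.L2
open scoped Classical Topology

theorem p_TK (hNR : S_NR) :
    S_TK := by
  obtain ⟨n0, h0⟩ := hNR
  refine ⟨n0 + 1500, fun k _ _ _ a c n E C1 lam D hn H hz hE hC W h1 h2 => ?_⟩
  have q0 := qq_pos (k := k)
  have q1 := one_le_qq (k := k)
  have s0 : 0 ≤ 1 - 1 / qq k := sub_nonneg.2 ((div_le_one q0).2 q1)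
  have u0 := eu_one_pos (pf a)
  have s1 : (1 - 1 / qq k) * eu 1 (pf a) ≤ eu 1 (pf a) :=
    mul_le_of_le_one_left u0.le (sub_le_self _ (by positivity))
  have hT : qq k ^ n * ((1 - 1 / qq k) * eu 1 (pf a)) * GG (pf a) E lam ≤
      qq k ^ n * (eu 1 (pf a) * C1 / (E : ℝ) ^ 2) := by
    rw [mul_assoc, mul_div_assoc]
    exact mul_le_mul_of_nonneg_left ((mul_le_mul_of_nonneg_left W.2.2.2.2.2
      (mul_nonneg s0 u0.le)).trans (mul_le_mul_of_nonneg_right s1 (by positivity)))
      (by positivity)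
  have he : 4 * (qq k ^ (n / 100 + 1)) ^ 2 * (qq k ^ n / qq k ^ (n / 30)) ≤
      qq k ^ n / 2 ^ (n / 100) := by
    have : 2 ^ (n / 100 + 2) * (qq k ^ (n / 100 + 1)) ^ 2 ≤ qq k ^ (n / 30) :=
      (mul_le_mul_of_nonneg_right (two_pow_le_qq _) (by positivity)).trans (by
        rw [← pow_mul, ← pow_add]
        exact qq_pow_mono (by omega))
    rw [← mul_div_assoc, div_le_div_iff₀ (by positivity) (by positivity)]
    convert mul_le_mul_of_nonneg_left this (pow_pos q0 n).le using 1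
    ring
  have hr := fun r => h0 k a c n E C1 lam D r (by omega) H hz hE W h1 h2
  refine ⟨?_, le_trans (TK_abs
    { toFun := NN a c n lam D
      map_add' := fun φ ψ => by simp [NN, NX, sum_add_distrib, mul_add]
      map_smul' := fun t φ => by simp [NN, NX, mul_sum, mul_left_comm] }
    (II k n E) (fun P => (qq k ^ P.natDegree + 1)⁻¹) (fun P => by positivity)
    (fun P => inv_le_one_of_one_le₀ (le_add_of_nonneg_left (by positivity))) hT (by positivity) hr)
    (add_le_add le_rfl (le_trans ?_ he))⟩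
  · have := (abs_le.1 (hr ∅ (empty_subset _) (by simp))).2
    simp only [empty_subset, if_true, prod_empty, mul_one] at this
    have h3 : 1 ≤ (qq k ^ (n / 100 + 1)) ^ 2 := one_le_pow₀ (one_le_pow₀ q1)
    have h4 : 0 ≤ qq k ^ n / qq k ^ (n / 30) := by positivity
    nlinarith
  · gcongr
    exact card_II_le _ _

end Pool.Agent.P.MP_8be758_nt.L3
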