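import Pool.Agent.P.MP_8be758_nt.L3.If
import Pool.Agent.P.MP_8be758_nt.L2.TTW
import Pool.Agent.P.MP_8be758_nt.L2.TWS1

/-! Step TW. -/

namespace Pool.Agent.P.MP_8be758_nt.L3

open Polynomial Finset Filter
open Pool.Agent.P.MP_8be758_nt.C2 Pool.Agent.P.MP_8be758_nt.L2
open scoped Classical Topology

theorem TW_low {k : Type} [Field k] [Finite k] [CharP k 2] {b g : k[X]} (hb : b ≠ 0) {n : ℕ} :
    fr (b * g) ∈ low k (n + b.natDegree) ↔ g ∈ low k n := by
  by_cases h : g = 0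
  · simp [h, fr, zero_mem_low]
  · have e : (fr (b * g)).natDegree = b.natDegree + g.natDegree := by
      rw [natDegree_fr, natDegree_mul hb h]
    exact ⟨fun h1 => mem_low_of_natDegree_lt (by
      have := natDegree_lt_of_mem_low h1 (fr_ne_zero (mul_ne_zero hb h)); omega),
      fun h1 => mem_low_of_natDegree_lt (by have := natDegree_lt_of_mem_low h1 h; omega)⟩

theorem TW_sum {k : Type} [Field k] [Finite k] [CharP k 2] {b M ν : k[X]} (hb : b ≠ 0) {n : ℕ}
    (φ : k[X] → ℝ) :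
    ∑ g ∈ Gx M ν n, φ (fr (b * g)) =
      ∑ U ∈ Gx (fr (b * M)) (fr (b * ν)) (n + b.natDegree), φ U := by
  refine sum_bij (fun g _ => fr (b * g)) ?_ ?_ ?_ fun _ _ => rfl
  · intro g hg
    obtain ⟨h1, t, h3⟩ := mem_Gx.1 hg
    refine mem_Gx.2 ⟨(TW_low hb).2 h1, fr t, ?_⟩
    have : g = ν + M * t := by linear_combination h3
    simp only [this, fr, Polynomial.map_mul, Polynomial.map_add]
    ring
  · intro g _ g' _ h
    exact mul_left_cancel₀ hb (TW_fr_inj h)
  · intro U hU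
    obtain ⟨h1, t, h3⟩ := mem_Gx.1 hU
    obtain ⟨t', rfl⟩ := TW_fr_surj t
    have e : fr (b * (ν + M * t')) = U := by
      simp only [fr, Polynomial.map_mul, Polynomial.map_add] at h3 ⊢
      linear_combination -h3
    exact ⟨ν + M * t', mem_Gx.2 ⟨(TW_low hb).1 (e ▸ h1), t', by ring⟩, e⟩

theorem TW_monic {k : Type} [Field k] [Finite k] [CharP k 2] {w v : k[X]}
    (h : (w ^ 2 + X * v ^ 2).Monic) (hd : 2 * v.natDegree + 1 < (w ^ 2 + X * v ^ 2).natDegree) :
    w.Monic ∧ 2 * w.natDegree = (w ^ 2 + X * v ^ 2).natDegree := by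
  have h1 : (X * v ^ 2).natDegree ≤ 2 * v.natDegree + 1 :=
    natDegree_mul_le.trans (by rw [natDegree_X, natDegree_pow]; omega)
  have h2 : (X * v ^ 2).natDegree < (w ^ 2).natDegree := by
    have := natDegree_add_le (w ^ 2) (X * v ^ 2)
    omega
  refine ⟨?_, by rw [natDegree_add_eq_left_of_natDegree_lt h2, natDegree_pow]⟩
  rw [Monic, leadingCoeff_add_of_degree_lt' (degree_lt_degree h2), leadingCoeff_pow] at h
  have h3 : (w.leadingCoeff - 1) ^ 2 = 0 := by
    linear_combination h + (1 - w.leadingCoeff) * (CharTwo.two_eq_zero : (2 : k) = 0)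
  exact sub_eq_zero.1 (pow_eq_zero_iff two_ne_zero |>.1 h3)

theorem p_TW (hTWU : S_TWU) (hROOT : S_ROOT) :
    S_TW := by
  intro hF κ hκ
  obtain ⟨κ2, n0, hκ2, H⟩ := hTWU hF (2 * κ) (by omega)
  refine ⟨κ2, n0 + 2, hκ2, fun k _ _ _ a c n S hn hH ⟨z1, z2, z3, z4⟩ hS hd hle => ?_⟩
  have ha0 : a ≠ 0 := hH.1
  have hc0 : c ≠ 0 := by rintro rfl; simp at z3; omega
  obtain ⟨a0, s, ha, h0⟩ := TW_sq_free _ a ha0 rfl
  have hs : s ≠ 0 := fun h => ha0 (by rw [← ha, h]; simp)
  have hac : a0 * c ≠ 0 := mul_ne_zero h0.ne_zero hc0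
  obtain ⟨z, hz'⟩ := exists_sqrt (a0 * c).leadingCoeff⁻¹
  have hz : z ≠ 0 := by
    rintro rfl
    exact inv_ne_zero (leadingCoeff_ne_zero.2 hac) (by rw [← hz']; simp)
  have hmon : (C (z ^ 2) * (a0 * c)).Monic := by
    rw [hz', mul_comm]; exact monic_mul_leadingCoeff_inv hac
  have h2 : (2 : k[X]) = 0 := CharTwo.two_eq_zero
  obtain ⟨w, v, hwv⟩ := exists_sq_add (C (z ^ 2) * (a0 * c))
  have hz2 : (C (z ^ 2) : k[X]) ≠ 0 := C_ne_zero.2 (pow_ne_zero 2 hz)
  have e0 : C (z ^ 2) * derivative (a * c) = (s * v) ^ 2 := by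
    have h1 := congrArg derivative hwv
    rw [derivative_sq_add, derivative_C_mul] at h1
    rw [mul_pow, ← h1, ← ha, mul_assoc (s ^ 2), derivative_mul (f := s ^ 2), derivative_sq]
    simp only [map_ofNat, h2]
    ring
  have hV : v ≠ 0 := by
    rintro rfl
    exact mul_ne_zero hz2 hH.2.2 (by rw [e0]; simp)
  have g1 : 2 * (s.natDegree + v.natDegree) ≤ n / κ2 := by
    have := congrArg natDegree e0
    rw [natDegree_C_mul (pow_ne_zero 2 hz), natDegree_pow, natDegree_mul hs hV] at this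
    omega
  have g2 : a.natDegree = 2 * s.natDegree + a0.natDegree := by
    rw [← ha, natDegree_mul (pow_ne_zero 2 hs) h0.ne_zero, natDegree_pow]
  have g3 : (w ^ 2 + X * v ^ 2).natDegree = a0.natDegree + c.natDegree := by
    rw [← hwv, natDegree_C_mul (pow_ne_zero 2 hz), natDegree_mul h0.ne_zero hc0]
  have g0 := Nat.div_le_self n κ2
  obtain ⟨g4, g5⟩ := TW_monic (hwv ▸ hmon) (by omega)
  have hb : a0 * s * C z ≠ 0 := mul_ne_zero (mul_ne_zero h0.ne_zero hs) (C_ne_zero.2 hz)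
  have g6 : (a0 * s * C z).natDegree = a0.natDegree + s.natDegree := by
    rw [natDegree_mul_C hz, natDegree_mul h0.ne_zero hs]
  have hco : IsCoprime (pr S) a := (coprime_pr_iff ha0 hS).2 hd
  have e1 : (low k n).filter (fun g => pr S ∣ FF a c g) = Gx (pr S) (rt a c (pr S)) n :=
    filter_congr fun g _ => hROOT k a c _ (squarefree_pr hS) hco g
  have e2 : ∀ g, mu (eo (fr w + fr (a0 * s * C z * g)) (fr v)) = mu a0 * mu (FF a c g) := by
    intro g
    have hc : IsCoprime a0 (FF a c g) :=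
      (coprime_FF hH.2.1 g).of_isCoprime_of_dvd_left ⟨s ^ 2, by rw [← ha]; ring⟩
    rw [← TW_mu_mul hc, ← TW_mu_C_mul (pow_ne_zero 2 hz) (a0 * _)]
    congr 1
    unfold eo
    rw [map_add, expand_fr, expand_fr, expand_fr, add_right_comm, ← hwv, FF, ← ha, C_pow]
    ring
  have hm : (fr (a0 * s * C z * pr S)).natDegree = (a0 * s * C z).natDegree + dg S := by
    rw [natDegree_fr, natDegree_mul hb (monic_pr hS).ne_zero, natDegree_pr hS]
  have hdiv : (n + (a0 * s * C z).natDegree) / (2 * κ) ≤ n / κ := by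
    rw [← Nat.mul_div_mul_left n κ (show 0 < 2 by norm_num)]
    exact Nat.div_le_div_right (by omega)
  have hdiv2 : n / κ2 ≤ (n + (a0 * s * C z).natDegree) / κ2 := Nat.div_le_div_right (by omega)
  have h4 := H k (fr v) (fr w) (fr (a0 * s * C z * pr S)) (fr (a0 * s * C z * rt a c (pr S)))
    (n + (a0 * s * C z).natDegree) (by omega) (fr_ne_zero hV) (g4.map _)
    (by rw [natDegree_fr]; omega) (by rw [natDegree_fr]; omega) (by rw [natDegree_fr]; omega)
    (fr_ne_zero (mul_ne_zero hb (monic_pr hS).ne_zero)) (by omega)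
  rw [← TW_sum hb (fun U => mu (eo (fr w + U) (fr v))), hm] at h4
  simp only [e2] at h4
  rw [← mul_sum, abs_mul, TW_abs_mu h0, one_mul] at h4
  rw [cx, e1]
  refine h4.trans ?_
  have hq := qq_pos (k := k)
  have e3 : qq k ^ (n + (a0 * s * C z).natDegree) / qq k ^ ((a0 * s * C z).natDegree + dg S) =
      qq k ^ n / qq k ^ dg S := by
    rw [pow_add, pow_add]
    field_simp
  rw [e3]
  refine div_le_div_of_nonneg_left (by positivity) (by positivity) ?_
  exact pow_le_pow_right₀ (by norm_num) hdiv2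

end Pool.Agent.P.MP_8be758_nt.L3
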