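import Pool.Agent.P.MP_8be758_nt.L3.If
import Pool.Agent.P.MP_8be758_nt.L2.TW2

/-! Step W2. -/

namespace Pool.Agent.P.MP_8be758_nt.L3

open Polynomial Finset Filter
open Pool.Agent.P.MP_8be758_nt.C2 Pool.Agent.P.MP_8be758_nt.L2
open scoped Classical Topology

theorem p_W2 (hWSB : S_WSB) (hRF : S_RF) (hROOT : S_ROOT) :
    S_W2 := by
  obtain ⟨D1, hD1⟩ := hWSB
  refine ⟨D1, fun k _ _ _ a c n δ D b P1 P2 hn hac hz hδ p1 p2 n12 a1 a2 hD hb => ?_⟩
  obtain ⟨q1, d1⟩ := mem_Pd.1 p1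
  obtain ⟨q2, d2⟩ := mem_Pd.1 p2
  have hq := qq_pos (k := k)
  have key : ∀ S ∈ Sc (pf a ∪ {P1, P2}) D, (∀ P ∈ S, IsPr P) ∧ dg S = D ∧ Disjoint S (pf a) ∧
      P1 ∉ S ∧ P2 ∉ S := fun S hS => by
    obtain ⟨h1, h2, h3⟩ := mem_Sc.1 hS
    rw [disjoint_union_right, disjoint_insert_right, disjoint_singleton_right] at h3
    exact ⟨h1, h2, h3⟩
  have one : ∀ S ∈ Sc (pf a ∪ {P1, P2}) D, ∀ P, IsPr P → P.natDegree = b → P ∉ pf a → P ∉ S →
      (D + b ≤ n → rr a c n (insert P S) = 0) ∧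
      (n < D + b → rr a c n (insert P S) = (∑ h ∈ (low k (D + b - n)).erase 0,
        psi (res (pr (insert P S))
          (h * rt a c (pr (insert P S))))) / qq k ^ (D + b - n)) := fun S hS P hP hd ha hs => by
    obtain ⟨h1, h2, h3, -⟩ := key S hS
    have e : dg (insert P S) = D + b := by rw [dg_insert hs]; omega
    have := hRF k a c n (insert P S) hac.1 (by simpa [hP] using h1) (by simp [ha, h3])
    rw [e] at this
    exact ⟨this.1, this.2.2⟩
  rcases le_or_gt (D + b) n with hx | hx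
  · rw [sum_eq_zero fun S hS => by
      rw [(one S hS P1 q1 d1 a1 (key S hS).2.2.2.1).1 hx, zero_mul]]
    rw [abs_zero]; positivity
  obtain ⟨x, hx'⟩ : ∃ x, x = D + b - n := ⟨_, rfl⟩
  rw [← hx'] at one
  have e1 : ∑ S ∈ Sc (pf a ∪ {P1, P2}) D, rr a c n (insert P1 S) * rr a c n (insert P2 S) =
      (∑ h1 ∈ (low k x).erase 0, ∑ h2 ∈ (low k x).erase 0,
          WS a c (h1 * P2 + h2 * P1) {P1, P2} (D + 2 * b)) / (qq k ^ x * qq k ^ x) := by
    simp only [WS, ← W2_bij p1 p2 n12 a1 a2]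
    rw [sum_congr rfl fun _ _ => sum_comm, sum_comm, sum_div]
    refine sum_congr rfl fun S hS => ?_
    obtain ⟨h1, h2, h3, h4, h5⟩ := key S hS
    rw [(one S hS P1 q1 d1 a1 h4).2 hx, (one S hS P2 q2 d2 a2 h5).2 hx, div_mul_div_comm,
      sum_mul_sum]
    refine congrArg (· / _) (sum_congr rfl fun u _ => sum_congr rfl fun v _ => ?_)
    rw [← W2_psi hROOT hac.1 u v (by simpa [q1, q2] using h1) (by simp [a1, a2, h3]) h4 h5 n12]
  have e2 : ∀ u ∈ (low k x).erase 0, ∀ v ∈ (low k x).erase 0,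
      |WS a c (u * P2 + v * P1) {P1, P2} (D + 2 * b)| ≤
        qq k ^ (D + 2 * b) / qq k ^ (n / 20) := fun u hu v hv => by
    obtain ⟨u0, hu⟩ := mem_erase.1 hu
    obtain ⟨v0, hv⟩ := mem_erase.1 hv
    have n0 : u * P2 + v * P1 ≠ 0 := fun e => by
      have h1 : P1 ∣ u * P2 := ⟨-v, by linear_combination e⟩
      exact u0 (eq_zero_of_mem_low hu ((q1.coprime q2 n12).dvd_of_dvd_mul_right h1) (by omega))
    have g1 := natDegree_lt_of_mem_low hu u0
    have g2 := natDegree_lt_of_mem_low hv v0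
    have g3 := natDegree_mul_le (p := u) (q := P2)
    have g4 := natDegree_mul_le (p := v) (q := P1)
    have g5 := natDegree_add_le (u * P2) (v * P1)
    refine (hD1 k a c _ n δ (D + 2 * b) _ hn hac hz hδ (by omega) n0 (by omega) (by omega)
      (by simp [q1, q2])).trans ?_
    exact div_le_div_of_nonneg_left (by positivity) (by positivity) (qq_pow_mono (by omega))
  have hc : (((low k x).erase 0).card : ℝ) ≤ qq k ^ x := by
    rw [← card_low']; exact_mod_cast card_erase_le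
  rw [e1, abs_div, abs_of_pos (a := qq k ^ x * qq k ^ x) (by positivity),
    div_le_iff₀ (by positivity)]
  refine (abs_sum_le_sum_abs _ _).trans ((sum_le_sum fun u hu =>
    (abs_sum_le_sum_abs _ _).trans (sum_le_sum (e2 u hu))).trans ?_)
  simp only [sum_const, nsmul_eq_mul]
  rw [← mul_assoc, mul_comm]
  gcongr

end Pool.Agent.P.MP_8be758_nt.L3
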