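import Pool.Agent.P.MP_8be758_nt.L3.If
import Pool.Agent.P.MP_8be758_nt.L2.TWB1

/-! Step WB1. -/

namespace Pool.Agent.P.MP_8be758_nt.L3

open Polynomial Finset Filter
open Pool.Agent.P.MP_8be758_nt.C2 Pool.Agent.P.MP_8be758_nt.L2
open scoped Classical Topology

theorem res_shift {k : Type} [Field k] {M M' : k[X]} (H : k[X]) (hM : M ≠ 0) (hM' : M' ≠ 0)
    (h : (H * (M' - M)).natDegree + 2 ≤ M.natDegree + M'.natDegree) : res M' H = res M H := by
  rw [← res_mul_mul M' H hM, ← res_mul_mul M H hM', mul_comm M' M,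
    show H * M' = H * M + H * (M' - M) by ring, res_add,
    res_eq_zero (H := H * (M' - M)) (by rwa [natDegree_mul hM hM']), add_zero]

theorem p_WB1 (hPH : S_PH) (hCOS : S_COS) (hSQ2 : S_SQ2) (hROOT : S_ROOT) :
    S_WB1 := by
  intro k _ _ _ a c w v h B M0 G Bd L D ha hB hac hM0 haB hLB hG hdeg hL hw hK
  have hBd : 0 ≤ Bd := (abs_nonneg _).trans (hK 0)
  have hm : B * a ≠ 0 := mul_ne_zero hB ha
  set T := low k (L - a.natDegree) with hT
  set φ : k[X] → ℝ := fun A => if Squarefree (A ^ 2 + X * B ^ 2) ∧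
      IsCoprime (A ^ 2 + X * B ^ 2) a ∧ M0 ∣ A ^ 2 + X * B ^ 2 then
      psi (res (A ^ 2 + X * B ^ 2) (h * rt a c (A ^ 2 + X * B ^ 2))) else 0 with hφ
  have hax : ∀ x ∈ T, a * x ∈ low k L := fun x hx => mul_mem_low hx (by omega)
  have main : ∀ A ∈ G, (Squarefree (A ^ 2 + X * B ^ 2) ∧
      IsCoprime (A ^ 2 + X * B ^ 2) a ∧ M0 ∣ A ^ 2 + X * B ^ 2) →
      |∑ x ∈ T, φ (A + a * x)| ≤ Bd := by
    rintro A hA ⟨h1, h2, h3⟩
    obtain ⟨t, ht⟩ := WB1_shift ha ((hSQ2 k A B).1 h1)
    obtain ⟨z0, hz0, hP⟩ := hPH k a c w v h B A t ha hB hac h2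
    obtain ⟨z, hzd⟩ : ∃ z, z = z0 * psi (res ((A ^ 2 + X * B ^ 2) * a) (h * w)) := ⟨_, rfl⟩
    have hz : |z| ≤ 1 := by rwa [hzd, abs_mul, abs_psi, mul_one]
    have e1 : ∀ x ∈ T, φ (A + a * x) =
        if M0 ∣ a * x then z * WB1_f (B * a) (h * v) (A + t * B + a * x) else 0 := by
      intro x hx
      have hA' := hG A hA _ (hax x hx)
      have e2 : (A + a * x) ^ 2 + X * B ^ 2 = A ^ 2 + X * B ^ 2 + (a * x) ^ 2 := by
        linear_combination add_self' (A * (a * x))
      have c1 : IsCoprime ((A + a * x) ^ 2 + X * B ^ 2) a := by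
        rw [e2, show (a * x) ^ 2 = a * (a * x ^ 2) by ring]
        exact h2.add_mul_left_left _
      have c2 : M0 ∣ (A + a * x) ^ 2 + X * B ^ 2 ↔ M0 ∣ a * x := by
        rw [e2, dvd_add_right h3]
        exact hM0.dvd_pow_iff_dvd two_ne_zero
      have c3 : IsCoprime (A + t * B + a * x) (B * a) ↔ IsCoprime (A + a * x) B := by
        rw [IsCoprime.mul_right_iff, and_iff_left (ht.add_mul_left_left x),
          show A + t * B + a * x = A + a * x + t * B by ring, IsCoprime.add_mul_right_left_iff]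
      by_cases hd : M0 ∣ a * x
      · rw [if_pos hd]
        by_cases hc : IsCoprime (A + a * x) B
        · have hs := (hSQ2 k _ B).2 hc
          obtain ⟨e, he, hf⟩ := WB1_one (h * v) hm (c3.2 hc)
          rw [hf, hφ]
          simp only
          rw [if_pos ⟨hs, c1, c2.2 hd⟩]
          have e5 : res (((A + a * x) ^ 2 + X * B ^ 2) * a) (h * w) =
              res ((A ^ 2 + X * B ^ 2) * a) (h * w) := by
            refine res_shift _ (mul_ne_zero h1.ne_zero ha) (mul_ne_zero hs.ne_zero ha) ?_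
            rw [natDegree_mul h1.ne_zero ha, natDegree_mul hs.ne_zero ha, (hdeg _ hA').1,
              (hdeg _ hA).1, e2, show h * w * ((A ^ 2 + X * B ^ 2 + (a * x) ^ 2) * a -
                (A ^ 2 + X * B ^ 2) * a) = h * w * ((a * x) ^ 2 * a) by ring]
            have g1 := natDegree_le_of_mem_low (hax x hx)
            have g2 := natDegree_mul_le (p := h * w) (q := (a * x) ^ 2 * a)
            have g3 := natDegree_mul_le (p := h) (q := w)
            have g4 := natDegree_mul_le (p := (a * x) ^ 2) (q := a)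
            rw [natDegree_pow] at g4
            omega
          rw [hzd, ← e5]
          refine hP (A + a * x) e _ ⟨x, by ring⟩ ?_ ?_ ((hdeg _ hA').1.symm ▸ (hdeg _ hA').2)
          · rwa [show A + a * x + t * B = A + t * B + a * x by ring]
          · exact (hROOT k a c _ hs c1 _).2 (by rw [sub_self]; exact dvd_zero _)
        · rw [WB1_zero (fun h' => hc (c3.1 h')), mul_zero, hφ]
          exact if_neg fun h' => hc ((hSQ2 k _ B).1 h'.1)
      · rw [if_neg hd, hφ]
        exact if_neg fun h' => hd (c2.1 h'.2.2)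
    rw [sum_congr rfl e1, ← sum_filter, ← mul_sum, abs_mul]
    have e3 : ∑ x ∈ T.filter (fun x => M0 ∣ a * x), WB1_f (B * a) (h * v) (A + t * B + a * x) =
        ∑ u ∈ (T.filter (fun x => M0 ∣ a * x)).image (fun x => a * x),
          WB1_f (B * a) (h * v) (A + t * B + u) :=
      (sum_image (f := fun u => WB1_f (B * a) (h * v) (A + t * B + u))
        (fun x _ y _ hxy => mul_left_cancel₀ ha hxy)).symm
    have e4 := hCOS k (B * a) (A + t * B) ((T.filter (fun x => M0 ∣ a * x)).image (fun x => a * x))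
      (WB1_f (B * a) (h * v)) Bd hm
      (by
        intro u hu
        obtain ⟨x, hx, rfl⟩ := mem_image.1 hu
        exact low_mono (by rw [natDegree_mul hB ha]; omega) (hax x (mem_filter.1 hx).1))
      (mem_image.2 ⟨0, mem_filter.2 ⟨zero_mem_low _, by simp⟩, mul_zero _⟩)
      (by
        intro u hu u' hu'
        obtain ⟨x, hx, rfl⟩ := mem_image.1 hu
        obtain ⟨x', hx', rfl⟩ := mem_image.1 hu'
        rw [mem_filter] at hx hx'
        refine mem_image.2 ⟨x + x', mem_filter.2 ⟨add_mem_low hx.1 hx'.1, ?_⟩, mul_add _ _ _⟩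
        rw [mul_add]
        exact dvd_add hx.2 hx'.2)
      (WB1_per _ _) (fun l => by rw [WB1_kl]; exact hK l)
    rw [e3]
    exact (mul_le_of_le_one_left (abs_nonneg _) hz).trans e4
  have inner : ∀ A ∈ G, |∑ x ∈ T, φ (A + a * x)| ≤ Bd := by
    intro A hA
    by_cases hex : ∃ x ∈ T, Squarefree ((A + a * x) ^ 2 + X * B ^ 2) ∧
      IsCoprime ((A + a * x) ^ 2 + X * B ^ 2) a ∧ M0 ∣ (A + a * x) ^ 2 + X * B ^ 2
    · obtain ⟨x1, hx1, hc⟩ := hex
      rw [← sum_shift T x1 (fun g hg => add_mem_low hg hx1) (fun x => φ (A + a * x))]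
      have := main _ (hG A hA _ (hax x1 hx1)) hc
      refine le_of_eq_of_le (congrArg _ (sum_congr rfl fun x _ => ?_)) this
      rw [show A + a * (x + x1) = A + a * x1 + a * x by ring]
    · rw [sum_eq_zero, abs_zero]
      · exact hBd
      · intro x hx
        exact if_neg fun h' => hex ⟨x, hx, h'⟩
  have av := sum_avg G T (fun x => a * x) (fun x hx g hg => hG g hg _ (hax x hx)) φ
  rw [hT, card_low'] at av
  rw [sum_filter, ← abs_of_pos (pow_pos (qq_pos (k := k)) (L - a.natDegree)),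
    ← abs_mul, mul_comm]
  change |qq k ^ (L - a.natDegree) * ∑ A ∈ G, φ A| ≤ _
  rw [av]
  refine (abs_sum_le_sum_abs _ _).trans ((sum_le_sum inner).trans_eq ?_)
  rw [sum_const, nsmul_eq_mul]

end Pool.Agent.P.MP_8be758_nt.L3
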