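import Pool.Agent.P.MP_8be758_nt.L3.If
import Pool.Agent.P.MP_8be758_nt.L2.TWS1

/-! Step WS1. -/

namespace Pool.Agent.P.MP_8be758_nt.L3

open Polynomial Finset Filter
open Pool.Agent.P.MP_8be758_nt.C2 Pool.Agent.P.MP_8be758_nt.L2
open scoped Classical Topology

theorem p_WS1 (hWB1 : S_WB1) (hBIJ : S_BIJ) :
    S_WS1 := by
  intro k _ _ _ a c w v h S0 D R0 δ Bd ha hac hS hR hD hw hBd hK
  have hq := qq_pos (k := k)
  rw [WS1_eq hBIJ c h ha hS, WS1_split D _ (fun M hM => (mem_Mo.1 (mem_filter.1 hM).1).2)]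
  refine (abs_sum_le_sum_abs _ _).trans ?_
  rw [← sum_filter_add_sum_filter_not _ (fun B : k[X] => B ≠ 0 ∧ R0 ≤ B.natDegree), add_comm]
  refine add_le_add ?_ (sum_le_sum fun B hB => ?_)
  · refine (sum_le_card_nsmul _ _ (qq k ^ (D / 2 + 1)) fun B _ => ?_).trans ?_
    · refine (abs_sum_le_sum_abs _ _).trans ?_
      simp only [abs_psi, sum_const, nsmul_eq_mul, mul_one]
      rw [← card_low']
      exact_mod_cast card_filter_le _ _
    · rw [nsmul_eq_mul, pow_add _ _ R0, mul_comm]
      refine mul_le_mul_of_nonneg_left ?_ (by positivity)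
      rw [← card_low']
      refine Nat.cast_le.2 (card_le_card fun B hB => ?_)
      by_cases h0 : B = 0
      · rw [h0]; exact zero_mem_low _
      · exact mem_low_of_natDegree_lt (not_le.1 fun h1 => (mem_filter.1 hB).2 ⟨h0, h1⟩)
  · obtain ⟨hB1, hB0, hB2⟩ := mem_filter.1 hB
    have hB3 := natDegree_lt_of_mem_low hB1 hB0
    have h1 := hWB1 k a c w v h B (pr S0)
      ((low k (D / 2 + 1)).filter fun A => A ^ 2 + X * B ^ 2 ∈ Mo k D) (Bd B) (B.natDegree - δ) D ha hB0
      hac (squarefree_pr hS) (by omega) (by omega) (fun A hA x hx => by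
        obtain ⟨a1, a2⟩ := mem_filter.1 hA
        refine mem_filter.2 ⟨add_mem_low a1 (low_mono (by omega) hx), ?_⟩
        have h2 : (2 : k[X]) = 0 := CharTwo.two_eq_zero
        have e : (A + x) ^ 2 + X * B ^ 2 = A ^ 2 + X * B ^ 2 + x ^ 2 := by
          linear_combination (A * x) * h2
        rw [e]
        refine add_mem_Gs a2 ?_ (one_dvd _)
        by_cases h0 : x = 0
        · rw [h0, zero_pow two_ne_zero]; exact zero_mem_low _
        · have a3 := natDegree_lt_of_mem_low hx h0
          have a4 := (WS1_deg A B).2 hB0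
          rw [(mem_Mo.1 a2).2] at a4
          exact mem_low_of_natDegree_lt (by rw [natDegree_pow]; omega))
      (fun A hA => by
        have a2 := (mem_Mo.1 (mem_filter.1 hA).2).2
        have a4 := (WS1_deg A B).1
        rw [a2] at a4
        exact ⟨a2, by omega⟩) (by omega) (by omega) (hK B hB1 hB0 hB2)
    rw [filter_filter] at h1
    simp only [mem_filter]
    rw [div_mul_eq_mul_div, le_div_iff₀ (by positivity)]
    refine h1.trans (mul_le_mul_of_nonneg_right ?_ (hBd B))
    rw [← card_low']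
    exact_mod_cast card_filter_le _ _

end Pool.Agent.P.MP_8be758_nt.L3
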