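import Pool.Agent.P.MP_8be758_nt.L3.If
import Pool.Agent.P.MP_8be758_nt.L2.TWSB
import Pool.Agent.P.MP_8be758_nt.L2.TWS1

/-! Step WSB. -/

namespace Pool.Agent.P.MP_8be758_nt.L3

open Polynomial Finset Filter
open Pool.Agent.P.MP_8be758_nt.C2 Pool.Agent.P.MP_8be758_nt.L2
open scoped Classical Topology

theorem p_WSB (hWS1 : S_WS1) (hKLB : S_KLB) (hT3S : S_T3S) :
    S_WSB := by
  obtain ⟨n0, hn0⟩ := NEG 4 200 12 (1 / 2) (by norm_num) (by norm_num)
  refine ⟨n0 + 10000, fun k _ _ _ a c h n δ D S0 hn hyp ⟨z1, z2, z3, z4⟩ hδ hD hh hd hd' hS => ?_⟩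
  obtain ⟨ha, -, hder⟩ := hyp
  obtain ⟨w, v, hwv⟩ := exists_sq_add (a * c)
  have hv : v ≠ 0 := by
    rintro rfl
    apply hder
    rw [hwv, derivative_sq_add]; simp
  have hq := qq_pos (k := k)
  have hq2 := two_le_qq (k := k)
  rw [hwv, derivative_sq_add, natDegree_pow] at z2
  have z5 := (WS1_deg w v).1
  have z6 := natDegree_mul_le (p := a) (q := c)
  rw [← hwv] at z5
  set Y := 43 * D / 100 + a.natDegree + v.natDegree + 2 with hY
  have key := hWS1 k a c w v h S0 D (D / 2 - D / 2 / 8) δ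
    (fun B => t3 (B * a) * (12 * D * qq k ^ Y)) ha hwv hS (by omega) (by omega) (by omega)
    (fun B => by positivity) (fun B hB hB0 hB1 l => by
      have h1 := natDegree_lt_of_mem_low hB hB0
      have e1 := natDegree_mul hB0 ha
      have e2 := natDegree_mul hh hv
      exact WSB_kl hKLB l (mul_ne_zero hB0 ha) (mul_ne_zero hh hv) (by omega) (by omega)
        (by omega))
  refine key.trans ?_
  have s1 : ∑ B ∈ (low k (D / 2 + 1)).filter (fun B => B ≠ 0 ∧ D / 2 - D / 2 / 8 ≤ B.natDegree),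
      qq k ^ (D / 2 + 1) / qq k ^ (B.natDegree - δ - a.natDegree) *
        (t3 (B * a) * (12 * D * qq k ^ Y)) ≤
      (qq k ^ (D / 2 + 1 + (2 * a.natDegree + δ)) * (12 * D * qq k ^ Y)) *
        (((D : ℝ) + 1) ^ 3 * qq k) := by
    refine le_trans ?_ (mul_le_mul_of_nonneg_left (WSB_sum hT3S (k := k) D) (by positivity))
    rw [mul_sum]
    refine le_trans (le_of_eq ?_) (sum_le_sum_of_subset_of_nonneg
      (s := ((low k (D / 2 + 1)).filter
        (fun B => B ≠ 0 ∧ D / 2 - D / 2 / 8 ≤ B.natDegree)).image (fun B => B * a))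
      (fun m hm => ?_) (fun _ _ _ => by positivity))
    · rw [sum_image (fun x _ y _ e => mul_right_cancel₀ ha e)]
      refine sum_congr rfl fun B hB => ?_
      obtain ⟨-, hB0, hB1⟩ := mem_filter.1 hB
      obtain ⟨j, hj⟩ : ∃ j, B.natDegree = j + a.natDegree + δ :=
        ⟨B.natDegree - δ - a.natDegree, by omega⟩
      rw [natDegree_mul hB0 ha, hj, Nat.add_sub_cancel, Nat.add_sub_cancel,
        pow_add (qq k) (D / 2 + 1), show j + a.natDegree + δ + a.natDegree =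
          j + (2 * a.natDegree + δ) by ring, pow_add (qq k) j]
      field_simp
    · obtain ⟨B, hB, rfl⟩ := mem_image.1 hm
      obtain ⟨hB2, hB0, hB1⟩ := mem_filter.1 hB
      have h1 := natDegree_lt_of_mem_low hB2 hB0
      have e1 := natDegree_mul hB0 ha
      exact mem_filter.2 ⟨mem_low_of_natDegree_lt (by omega), mul_ne_zero hB0 ha⟩
  have s2 : qq k ^ D / qq k ^ (D / 20) = qq k ^ (D - D / 20) := by
    rw [pow_sub₀ _ hq.ne' (by omega), div_eq_mul_inv]
  have s3 : qq k ^ (D / 2 + 1 + (D / 2 - D / 2 / 8)) ≤ qq k ^ (D - D / 20) / 2 := by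
    have : qq k ^ (D / 2 + 1 + (D / 2 - D / 2 / 8) + 1) ≤ qq k ^ (D - D / 20) :=
      qq_pow_mono (by omega)
    rw [pow_succ] at this
    have h0 : 0 < qq k ^ (D / 2 + 1 + (D / 2 - D / 2 / 8)) := by positivity
    nlinarith
  have s4 : (qq k ^ (D / 2 + 1 + (2 * a.natDegree + δ)) * (12 * D * qq k ^ Y)) *
      (((D : ℝ) + 1) ^ 3 * qq k) ≤ qq k ^ (D - D / 20) / 2 := by
    have h1 := (hn0 D (by omega)).trans
      (mul_le_mul_of_nonneg_left (two_pow_le_qq (k := k) (D / 200)) (by norm_num))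
    have h2 : qq k ^ (D / 200 + (D / 2 + 1 + (2 * a.natDegree + δ) + Y + 1)) ≤ qq k ^ (D - D / 20) :=
      qq_pow_mono (by omega)
    have h3 : (D : ℝ) * ((D : ℝ) + 1) ^ 3 ≤ ((D : ℝ) + 1) ^ 4 := by
      rw [pow_succ' _ 3]; gcongr; linarith
    calc _ = 12 * ((D : ℝ) * ((D : ℝ) + 1) ^ 3) *
          qq k ^ (D / 2 + 1 + (2 * a.natDegree + δ) + Y + 1) := by ring
      _ ≤ 12 * ((D : ℝ) + 1) ^ 4 * qq k ^ (D / 2 + 1 + (2 * a.natDegree + δ) + Y + 1) := by gcongr
      _ ≤ 1 / 2 * qq k ^ (D / 200) * qq k ^ (D / 2 + 1 + (2 * a.natDegree + δ) + Y + 1) := by gcongr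
      _ ≤ _ := by rw [mul_assoc, ← pow_add]; linarith
  rw [s2]
  linarith

end Pool.Agent.P.MP_8be758_nt.L3
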