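import Pool.Agent.P.MP_8be758_nt.L3.If
import Pool.Agent.P.MP_8be758_nt.L2.TXP

/-! Step XP. -/

namespace Pool.Agent.P.MP_8be758_nt.L3

open Polynomial Finset Filter
open Pool.Agent.P.MP_8be758_nt.C2 Pool.Agent.P.MP_8be758_nt.L2
open scoped Classical Topology

theorem p_XP :
    S_XP := by
  intro k _ _ _ a c n E D lam φ ξ hH hlam
  have key : ∀ g : k[X], ξ g * (wt lam (pf (FF a c g)) *
      ∑ d ∈ (pf (FF a c g)).powerset.filter (fun d => dg d = D), φ d) =
      ∑ e ∈ (Sle k E).filter (fun e => Disjoint e (pf a)), ∑ d ∈ Sc (pf a) D,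
        if pr (d ∪ e) ∣ FF a c g then lam e * (φ d * ξ g) else 0 := by
    intro g
    have hf := FF_ne_zero hH g
    have hc := coprime_FF hH.2.1 g
    have h1 : wt lam (pf (FF a c g)) = ∑ e ∈ (Sle k E).filter (fun e => Disjoint e (pf a)),
        if e ⊆ pf (FF a c g) then lam e else 0 := by
      rw [← sum_filter, wt]
      symm
      refine sum_subset (fun e he => mem_powerset.2 (mem_filter.1 he).2) fun e he hn => ?_
      by_contra h0
      have hs := mem_powerset.1 he
      exact hn (mem_filter.2 ⟨mem_filter.2 ⟨hlam e h0, XP_disj hH.1 hf hc hs⟩, hs⟩)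
    have h2 : ∑ d ∈ (pf (FF a c g)).powerset.filter (fun d => dg d = D), φ d =
        ∑ d ∈ Sc (pf a) D, if d ⊆ pf (FF a c g) then φ d else 0 := by
      rw [← sum_filter]
      refine sum_congr ?_ fun _ _ => rfl
      ext d
      rw [mem_filter, mem_filter, mem_powerset, mem_Sc]
      exact ⟨fun h => ⟨⟨fun P hP => isPr_of_mem_pf (h.1 hP), h.2, XP_disj hH.1 hf hc h.1⟩, h.1⟩,
        fun h => ⟨h.2, h.1.2.1⟩⟩
    rw [h1, h2, sum_mul_sum, mul_sum]
    refine sum_congr rfl fun e he => ?_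
    rw [mul_sum]
    refine sum_congr rfl fun d hd => ?_
    have hp : ∀ P ∈ d ∪ e, IsPr P := fun P hP => (mem_union.1 hP).elim
      ((mem_Sc.1 hd).1 P) ((mem_Sle.1 (mem_filter.1 he).1).1 P)
    rw [← subset_pf_iff hf hp, union_subset_iff]
    by_cases u : e ⊆ pf (FF a c g) <;> by_cases v : d ⊆ pf (FF a c g) <;> simp [u, v]
    ring
  unfold NX
  rw [sum_congr rfl fun g _ => key g, sum_comm]
  refine sum_congr rfl fun e _ => ?_
  rw [sum_comm, mul_sum]
  refine sum_congr rfl fun d _ => ?_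
  rw [cx, ← sum_filter, mul_sum, mul_sum]

end Pool.Agent.P.MP_8be758_nt.L3
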