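import Pool.Agent.P.MP_8be758_nt.L3.If
import Pool.Agent.P.MP_8be758_nt.L2.TZB

/-! Step ZB. -/

namespace Pool.Agent.P.MP_8be758_nt.L3

open Polynomial Finset Filter
open Pool.Agent.P.MP_8be758_nt.C2 Pool.Agent.P.MP_8be758_nt.L2
open scoped Classical Topology

theorem ZB_end (q : ℝ) (hq : 2 ≤ q) (n E : ℕ) (u B s1 s2 Pp : ℝ) (hu : u ≤ 1 / 2 ^ E)
    (hB : B = 2 * q ^ n / q ^ (2 * E))
    (h10 : 0 ≤ s1) (h1 : s1 ≤ Pp) (h2 : s2 ≤ q ^ E * Pp)
    (hP : Pp ≤ 3 ^ 248 * ((n : ℝ) + 1) ^ 248)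
    (hN : 3 * 3 ^ 248 * ((n : ℝ) + 1) ^ 249 ≤ 1 * 2 ^ (E / 2)) :
    q ^ n * u * s1 + (n : ℝ) * B * s2 ≤ q ^ n / 2 ^ (E / 4) := by
  have h0 : (0 : ℝ) < q := by linarith
  have hP0 : 0 ≤ Pp := h10.trans h1
  have hn : (0 : ℝ) ≤ n := Nat.cast_nonneg n
  have hE : (2 : ℝ) ^ E ≤ q ^ E := pow_le_pow_left₀ (by norm_num) hq E
  have b1 : q ^ n * u * s1 ≤ q ^ n / 2 ^ E * (((n : ℝ) + 1) * Pp) := by
    calc q ^ n * u * s1 ≤ q ^ n * (1 / 2 ^ E) * (((n : ℝ) + 1) * Pp) := by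
          have : s1 ≤ ((n : ℝ) + 1) * Pp := by nlinarith
          gcongr
      _ = _ := by ring
  have b2 : (n : ℝ) * B * s2 ≤ q ^ n / 2 ^ E * (2 * (((n : ℝ) + 1) * Pp)) := by
    calc (n : ℝ) * B * s2
        ≤ (n : ℝ) * (2 * q ^ n / q ^ (2 * E)) * (q ^ E * Pp) := by rw [hB]; gcongr
      _ = q ^ n / q ^ E * (2 * ((n : ℝ) * Pp)) := by
          rw [two_mul E, pow_add]; field_simp
      _ ≤ q ^ n / 2 ^ E * (2 * (((n : ℝ) + 1) * Pp)) := by
          gcongr; linarith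
  have b3 : 3 * (((n : ℝ) + 1) * Pp) ≤ 2 ^ (E / 2) := by
    calc 3 * (((n : ℝ) + 1) * Pp)
        ≤ 3 * (((n : ℝ) + 1) * (3 ^ 248 * ((n : ℝ) + 1) ^ 248)) := by gcongr
      _ = 3 * 3 ^ 248 * ((n : ℝ) + 1) ^ 249 := by
          rw [pow_succ ((n : ℝ) + 1) 248]
          generalize ((n : ℝ) + 1) ^ 248 = u
          generalize (3 : ℝ) ^ 248 = v
          ring
      _ ≤ _ := by rwa [one_mul] at hN
  have b4 : q ^ n / 2 ^ E * 2 ^ (E / 2) ≤ q ^ n / 2 ^ (E / 4) := by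
    rw [div_mul_eq_mul_div, div_le_div_iff₀ (by positivity) (by positivity), mul_assoc, ← pow_add]
    exact mul_le_mul_of_nonneg_left (pow_le_pow_right₀ (by norm_num) (by omega)) (by positivity)
  have b5 : q ^ n / 2 ^ E * (3 * (((n : ℝ) + 1) * Pp)) ≤
      q ^ n / 2 ^ E * 2 ^ (E / 2) := mul_le_mul_of_nonneg_left b3 (by positivity)
  calc _ ≤ _ := add_le_add b1 b2
    _ = q ^ n / 2 ^ E * (3 * (((n : ℝ) + 1) * Pp)) := by ring
    _ ≤ _ := b5.trans b4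

theorem p_ZB (hZB1 : S_ZB1) (hXAB : S_XAB) (hLAM : S_LAM) (hT2B : S_T2B) :
    S_ZB := by
  intro κ hκ
  obtain ⟨n1, h1⟩ := hT2B
  obtain ⟨n2, h2⟩ := NEG 249 (κ * 2) (3 * 3 ^ 248) 1 (by omega) one_pos
  refine ⟨n1 + n2 + 100, fun k _ _ _ a c n C1 lam D hn hH hz hW hD1 hD2 => ?_⟩
  have hq := two_le_qq (k := k)
  have hq0 := qq_pos (k := k)
  have hE1 : 1000 * (n / κ) ≤ n :=
    le_trans (Nat.mul_le_mul_right _ hκ) (Nat.mul_div_le n κ)
  have hE2 := hz.1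
  have hN := h2 n (by omega)
  rw [← Nat.div_div_eq_div_mul] at hN
  have hn1 : n1 ≤ n := by omega
  have hn2 : 100 ≤ n := by omega
  have hEn : n / κ ≤ n := Nat.div_le_self _ _
  generalize n / κ = E at *
  obtain ⟨-, hw1, hw2, -⟩ := hW
  obtain ⟨l1, l2⟩ := hLAM k E lam hw2
  refine (hZB1 k a c n E D lam (qq k / (qq k ^ (n / 100 + 2) * 2 ^ (3 * E + 2)))
    (2 * qq k ^ n / qq k ^ (2 * E)) hH hw1 hE2 (by omega) (by positivity) (by positivity)
    ?_ ?_).trans ?_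
  · intro s D' hs hD'
    refine (hXAB k s D' hs).2.2.trans ?_
    rw [mul_comm (qq k), mul_div_assoc]
    refine mul_le_mul_of_nonneg_left ?_ (by positivity)
    exact div_le_div_of_nonneg_left hq0.le (by positivity)
      (ZB_sqrt _ hq _ _ _ (by omega))
  · intro b D' hb1 hb2 hb3
    exact ZB_sq _ _ hq n E D' b (n / 20) (by omega) (by omega)
      (h1 k a c n E D' b hn1 hH hz hE1 (by omega) (by omega) (by omega))
  · refine ZB_end _ hq n E _ _ _ _ _ ?_ rfl (sum_nonneg fun e _ => by positivity) l1 l2 ?_ hN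
    · have c1 := card_II_le (k := k) n E
      have c2 := four_pow_pf_le hH.1 hE2
      calc _ ≤ 2 ^ (2 * E) * 4 * qq k ^ (n / 100 + 1) *
            (qq k / (qq k ^ (n / 100 + 2) * 2 ^ (3 * E + 2))) := by
            rw [pow_succ (4 : ℝ)]
            gcongr
        _ = _ := by
            rw [show 3 * E + 2 = 2 * E + E + 2 by ring, pow_add, pow_add, pow_add, pow_add]
            field_simp
            norm_num
    · rw [← mul_pow]
      refine pow_le_pow_left₀ (by positivity) ?_ _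
      have : (E : ℝ) ≤ n := by exact_mod_cast hEn
      linarith

end Pool.Agent.P.MP_8be758_nt.L3
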