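import Pool.Agent.P.MP_8be758_nt.L3.If
import Pool.Agent.P.MP_8be758_nt.L2.TZB1

/-! Step ZB1. -/

namespace Pool.Agent.P.MP_8be758_nt.L3

open Polynomial Finset Filter
open Pool.Agent.P.MP_8be758_nt.C2 Pool.Agent.P.MP_8be758_nt.L2
open scoped Classical Topology

section
variable {k : Type} [Field k] [Finite k]

/-- The sum for a fixed sieve set and a fixed common part. -/
theorem ZB1_one (a c : k[X]) (n E D D1 : ℕ) (B1 B2 : ℝ) (e : Finset k[X]) (ha0 : a ≠ 0)
    (ha : a.natDegree ≤ E) (h1 : 0 ≤ B1) (h2 : 0 ≤ B2) (he : ∀ P ∈ e, IsPr P) (heE : dg e ≤ E)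
    (hd : Disjoint e (pf a)) (hD : E + n / 100 ≤ D) (hD1 : D ≤ D1 + E) (hD2 : D1 ≤ D)
    (H1 : ∀ (s : Finset k[X]) (D' : ℕ), (∀ P ∈ s, IsPr P) → D ≤ D' + E + n / 100 →
      |xs (-1) s D'| ≤ 4 ^ s.card * B1)
    (H2 : ∀ b D' : ℕ, 12 * E < b → b ≤ n / 100 → D' + b ≤ D + E →
      ∑ S ∈ Sc (pf a) D', |∑ P ∈ Pd k b \ S, rr a c n (insert P S)| ≤ B2) :
    |∑ d ∈ Sc (pf a ∪ e) D1, om n E d * (sg d * cx a c n (fun _ => 1) (d ∪ e))| ≤
      qq k ^ n * (4 ^ ((pf a).card + 1) * (II k n E).card * B1) * (4 ^ e.card / qq k ^ dg e) +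
        n * B2 := by
  have hq := qq_pos (k := k)
  have hI : ∀ P ∈ II k n E, IsPr P ∧ P ∉ pf a ∪ e ∧ P.natDegree ≤ D1 := fun P hP => by
    obtain ⟨a1, a2, a3⟩ := mem_II.1 hP
    refine ⟨a1, fun h => ?_, by omega⟩
    rcases mem_union.1 h with h | h
    · have := natDegree_le_of_dvd ((mem_pf ha0).1 h).2 ha0
      omega
    · have := natDegree_le_dg h
      omega
  unfold om
  rw [ZB1_ext _ _ _ _ hI]
  have h3 : ∀ P ∈ II k n E, ∑ d ∈ Sc (insert P (pf a ∪ e)) (D1 - P.natDegree),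
      sg (insert P d) * cx a c n (fun _ => 1) (insert P d ∪ e) =
      -(qq k ^ n / qq k ^ dg e / qq k ^ P.natDegree *
        xs (-1) (insert P (pf a ∪ e)) (D1 - P.natDegree)) -
      ∑ d ∈ Sc (insert P (pf a ∪ e)) (D1 - P.natDegree),
        sg d * rr a c n (insert P (d ∪ e)) := fun P hP => by
    obtain ⟨a1, a2, a3⟩ := hI P hP
    rw [xs, sum_div, mul_sum, ← sum_neg_distrib, ← sum_sub_distrib]
    refine sum_congr rfl fun d hd' => ?_
    obtain ⟨b1, b2, b3⟩ := mem_Sc.1 hd'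
    obtain ⟨b4, b5⟩ := disjoint_insert_right.1 b3
    have b6 : P ∉ d ∪ e := fun h => (mem_union.1 h).elim b4 fun h => a2 (mem_union_right _ h)
    rw [sg_insert b4, insert_union, rr, dg_insert b6, dg_union (disjoint_union_right.1 b5).2, b2,
      pow_add, pow_add, sg]
    field_simp
    ring
  rw [sum_congr rfl h3, sum_sub_distrib]
  refine (abs_sub _ _).trans (add_le_add ?_ ?_)
  · refine (abs_sum_le_sum_abs _ _).trans ((sum_le_card_nsmul _ _
      (qq k ^ n / qq k ^ dg e * (4 ^ ((pf a).card + 1) * 4 ^ e.card * B1)) fun P hP => ?_).trans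
      (le_of_eq ?_))
    · obtain ⟨a1, a2, a3⟩ := hI P hP
      have a4 := (mem_II.1 hP).2.2
      have a5 := H1 (insert P (pf a ∪ e)) (D1 - P.natDegree) (fun Q hQ => by
        rcases mem_insert.1 hQ with rfl | hQ
        · exact a1
        · exact (mem_union.1 hQ).elim isPr_of_mem_pf (he Q)) (by omega)
      have a6 : (insert P (pf a ∪ e)).card ≤ (pf a).card + 1 + e.card := by
        have := card_insert_le P (pf a ∪ e)
        have := card_union_le (pf a) e
        omega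
      rw [abs_neg, abs_mul, abs_of_nonneg (by positivity), ← pow_add]
      refine mul_le_mul (div_le_self (by positivity) (one_le_pow₀ one_le_qq))
        (a5.trans (mul_le_mul_of_nonneg_right (pow_le_pow_right₀ (by norm_num) a6) h1))
        (abs_nonneg _) (by positivity)
    · rw [nsmul_eq_mul]; ring
  · rw [← sum_fiberwise_of_maps_to (t := Ioc (12 * E) (n / 100)) (g := natDegree)
      fun P hP => mem_Ioc.2 (mem_II.1 hP).2]
    refine (abs_sum_le_sum_abs _ _).trans ((sum_le_card_nsmul _ _ B2 fun b hb => ?_).trans ?_)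
    · obtain ⟨b1, b2⟩ := mem_Ioc.1 hb
      have b3 : (II k n E).filter (fun P => P.natDegree = b) = Pd k b := by
        ext P
        rw [mem_filter, mem_II, mem_Pd]
        exact ⟨fun h => ⟨h.1.1, h.2⟩, fun h => ⟨⟨h.1, by omega, by omega⟩, h.2⟩⟩
      rw [b3, sum_congr rfl fun P hP => by rw [(mem_Pd.1 hP).2]]
      exact (ZB1_rem _ e b _ _ he hd (by omega)).trans (H2 b _ b1 b2 (by omega))
    · rw [nsmul_eq_mul, Nat.card_Ioc]
      exact mul_le_mul_of_nonneg_right (Nat.cast_le.2 (by omega)) h2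

end

theorem p_ZB1 (hXP : S_XP) (hSPL : S_SPL) :
    S_ZB1 := by
  intro k _ _ _ a c n E D lam B1 B2 hH hl ha hD h1 h2 H1 H2
  have hq := qq_pos (k := k)
  rw [NN, hXP k a c n E D lam _ _ hH hl, mul_sum, mul_sum, ← sum_add_distrib]
  refine (abs_sum_le_sum_abs _ _).trans ((sum_le_sum fun e he => ?_).trans
    (sum_le_sum_of_subset_of_nonneg (filter_subset _ _) fun _ _ _ => by positivity))
  obtain ⟨he, hd⟩ := mem_filter.1 he
  obtain ⟨a1, a2⟩ := mem_Sle.1 he
  rw [hSPL k (pf a) e D _ a1 hd, abs_mul]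
  have h3 := sum_le_card_nsmul (e.powerset.filter fun e1 => dg e1 ≤ D) (fun e1 =>
    |∑ d ∈ Sc (pf a ∪ e) (D - dg e1), sg (e1 ∪ d) * om n E (e1 ∪ d) *
      cx a c n (fun _ => 1) (e1 ∪ d ∪ e)|) _ fun e1 h => by
    have b1 := mem_powerset.1 (mem_filter.1 h).1
    have b2 := dg_mono b1
    refine le_trans (le_of_eq ?_) (ZB1_one a c n E D (D - dg e1) B1 B2 e hH.1 ha h1 h2 a1 a2 hd hD
      (by omega) (by omega) H1 H2)
    rw [← one_mul |∑ d ∈ _, om n E d * _|, ← abs_sg e1, ← abs_mul, mul_sum]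
    refine congrArg _ (sum_congr rfl fun d hd' => ?_)
    have b3 := ((disjoint_union_right.1 (mem_Sc.1 hd').2.2).2.mono_right b1).symm
    have b4 : (e1 ∪ d) ∩ II k n E = d ∩ II k n E := by
      rw [union_inter_distrib_right, disjoint_iff_inter_eq_empty.1, empty_union]
      refine disjoint_left.2 fun P hP hP' => ?_
      have := natDegree_le_dg hP
      have := (mem_II.1 hP').2.1
      omega
    rw [sg_union b3, om, om, b4, union_right_comm, union_eq_right.2 b1, union_comm e d]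
    ring
  have h4 : ((e.powerset.filter fun e1 => dg e1 ≤ D).card : ℝ) ≤ 2 ^ e.card := by
    exact_mod_cast (card_filter_le _ _).trans_eq (card_powerset e)
  rw [nsmul_eq_mul] at h3
  refine (mul_le_mul_of_nonneg_left ((abs_sum_le_sum_abs _ _).trans (h3.trans
    (mul_le_mul_of_nonneg_right h4 (by positivity)))) (abs_nonneg _)).trans (le_of_eq ?_)
  rw [show (8 : ℝ) = 2 * 4 by norm_num, mul_pow]
  ring

end Pool.Agent.P.MP_8be758_nt.L3
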