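import Pool.Agent.P.MP_8be758_nt.L2.All
import Pool.Agent.P.MP_8be758_nt.L2.Last
import Pool.Agent.P.MP_8be758_nt.L3.TXP
import Pool.Agent.P.MP_8be758_nt.L3.TRF
import Pool.Agent.P.MP_8be758_nt.L3.TGLB
import Pool.Agent.P.MP_8be758_nt.L3.TSEL
import Pool.Agent.P.MP_8be758_nt.L3.TID
import Pool.Agent.P.MP_8be758_nt.L3.TT1A
import Pool.Agent.P.MP_8be758_nt.L3.TT1
import Pool.Agent.P.MP_8be758_nt.L3.TBADK
import Pool.Agent.P.MP_8be758_nt.L3.TPARM
import Pool.Agent.P.MP_8be758_nt.L3.TTWU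
import Pool.Agent.P.MP_8be758_nt.L3.TTW
import Pool.Agent.P.MP_8be758_nt.L3.TCPL
import Pool.Agent.P.MP_8be758_nt.L3.TT3
import Pool.Agent.P.MP_8be758_nt.L3.TPH
import Pool.Agent.P.MP_8be758_nt.L3.TWB1
import Pool.Agent.P.MP_8be758_nt.L3.TWS1
import Pool.Agent.P.MP_8be758_nt.L3.TWSB
import Pool.Agent.P.MP_8be758_nt.L3.TW1
import Pool.Agent.P.MP_8be758_nt.L3.TW2
import Pool.Agent.P.MP_8be758_nt.L3.TT2B
import Pool.Agent.P.MP_8be758_nt.L3.TNR1
import Pool.Agent.P.MP_8be758_nt.L3.TNR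
import Pool.Agent.P.MP_8be758_nt.L3.TTK
import Pool.Agent.P.MP_8be758_nt.L3.TZB1
import Pool.Agent.P.MP_8be758_nt.L3.TZB
import Pool.Agent.P.MP_8be758_nt.L3.TLLB
import Pool.Agent.P.MP_8be758_nt.L3.TMID
import Pool.Agent.P.MP_8be758_nt.L3.TFIN

/-! The steps put together, and the statement in plain terms. -/

namespace Pool.Agent.P.MP_8be758_nt.L3

open Polynomial Finset
open Pool.Agent.P.MP_8be758_nt.C2 Pool.Agent.P.MP_8be758_nt.L2
open scoped Classical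

theorem t_XP : S_XP := p_XP

theorem t_RF : S_RF := p_RF L2.t_ROOT L2.t_ORTH

theorem t_GLB : S_GLB := p_GLB L2.t_BASE L2.t_REC

theorem t_SEL : S_SEL := p_SEL L2.t_SEL0 t_GLB

theorem t_ID : S_ID := p_ID L2.t_SQF

theorem t_T1A : S_T1A := p_T1A t_XP t_RF L2.t_SPL L2.t_XC

theorem t_T1 : S_T1 := p_T1 t_T1A L2.t_LAM

theorem t_BADK : S_BADK := p_BADK

theorem t_PARM : S_PARM := p_PARM

theorem t_TWU : S_TWU := p_TWU L2.t_WY L2.t_DEC t_BADK t_PARM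

theorem t_TW : S_TW := p_TW t_TWU L2.t_ROOT

theorem t_CPL : S_CPL := p_CPL L2.t_SQF

theorem t_T3 : S_T3 := p_T3 t_XP t_TW t_CPL L2.t_SPL L2.t_XAB L2.t_LAM

theorem t_PH : S_PH := p_PH L2.t_SQ2

theorem t_WB1 : S_WB1 := p_WB1 t_PH L2.t_COS L2.t_SQ2 L2.t_ROOT

theorem t_WS1 : S_WS1 := p_WS1 t_WB1 L2.t_BIJ

theorem t_WSB : S_WSB := p_WSB t_WS1 L2.t_KLB L2.t_T3S

theorem t_W1 : S_W1 := p_W1 t_WSB t_RF

theorem t_W2 : S_W2 := p_W2 t_WSB t_RF L2.t_ROOT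

theorem t_T2B : S_T2B := p_T2B t_W2 t_RF L2.t_XAB L2.t_GAUSS

theorem t_NR1 : S_NR1 := p_NR1 t_XP L2.t_SPL

theorem t_NR : S_NR := p_NR t_NR1 L2.t_XAB L2.t_LAM t_W1

theorem t_TK : S_TK := p_TK t_NR

theorem t_ZB1 : S_ZB1 := p_ZB1 t_XP L2.t_SPL

theorem t_ZB : S_ZB := p_ZB t_ZB1 L2.t_XAB L2.t_LAM t_T2B

theorem t_LLB : S_LLB := p_LLB L2.t_GAUSS

theorem t_MID : S_MID := p_MID t_TK t_ZB t_LLB

theorem t_FIN : S_FIN := p_FIN t_ID t_SEL t_T1 t_T3 t_MID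

theorem last (ε : ℝ) (hε : 0 < ε) : ∃ η : ℝ, 0 < η ∧ ∃ n0 : ℕ,
    ∀ (k : Type) [Field k] [Finite k] [CharP k 2] (a c g0 : k[X]) (n m : ℕ), a ≠ 0 →
      Irreducible (C a * X ^ 2 + C c : k[X][X]) → n0 ≤ n → g0.natDegree = n →
      (a.natDegree : ℝ) ≤ η * n → (c.natDegree : ℝ) ≤ η * n → (1 - η) * n ≤ m → m ≤ n →
      |(Set.ncard {g : k[X] | (g - g0).degree < m ∧ Irreducible (a * g ^ 2 + c)} : ℝ) /
          ((Nat.card k : ℝ) ^ m / (2 * n + a.natDegree)) -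
        ∏ᶠ P ∈ {P : k[X] | P.Monic ∧ Irreducible P ∧ P ∣ a},
          (1 - 1 / (Nat.card k : ℝ) ^ P.natDegree)⁻¹| ≤
      ε * ∏ᶠ P ∈ {P : k[X] | P.Monic ∧ Irreducible P ∧ P ∣ a},
          (1 - 1 / (Nat.card k : ℝ) ^ P.natDegree)⁻¹ := by
  obtain ⟨κ, n0, hκ, h⟩ := t_FIN L2.t_FORM ε hε
  have k0 : (0 : ℝ) < 6 * κ := by positivity
  refine ⟨1 / (6 * κ), by positivity, 2 * n0 + 2,
    fun k _ _ _ a c g0 n m ha hirr hn hg h1 h2 h3 h4 => ?_⟩
  have H := hyp_of_irreducible ha hirr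
  have two : (2 : k[X]) = 0 := CharTwo.two_eq_zero
  have cv : ∀ x : ℕ, (x : ℝ) ≤ 1 / (6 * κ) * n → 6 * (x * κ) ≤ n := fun x hx => by
    rw [one_div_mul_eq_div, le_div_iff₀ k0] at hx
    have : ((6 * (x * κ) : ℕ) : ℝ) ≤ n := by push_cast; linarith
    exact_mod_cast this
  have b1 := cv _ h1
  have b2 := cv _ h2
  have b3 := cv (n - m) (by rw [Nat.cast_sub h4]; linarith)
  have b4 := Nat.le_mul_of_pos_right (n - m) hκ
  have b5 := Nat.le_mul_of_pos_right c.natDegree hκ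
  have g0' : g0 ≠ 0 := by rintro rfl; simp at hg; omega
  have d0 : (a * g0 ^ 2).natDegree = a.natDegree + 2 * n := by
    rw [natDegree_mul ha (pow_ne_zero _ g0'), natDegree_pow, hg]
  have d1 : (FF a c g0).natDegree = a.natDegree + 2 * n := by
    rw [FF, natDegree_add_eq_left_of_natDegree_lt (by omega), d0]
  have d2 : derivative (a * FF a c g0) = derivative (a * c) := by
    rw [show a * FF a c g0 = (a * g0) ^ 2 + a * c by rw [FF]; ring, derivative_add, derivative_sq]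
    simp [map_ofNat, two]
  have d3 := (natDegree_derivative_le (a * c)).trans
    ((Nat.sub_le _ _).trans (natDegree_mul_le (p := a) (q := c)))
  have dv : ∀ x : ℕ, x * κ ≤ m → x ≤ m / κ := fun x hx => (Nat.le_div_iff_mul_le hκ).2 hx
  have z1 := dv (a.natDegree + c.natDegree) (by rw [add_mul]; omega)
  have z2 := dv (a.natDegree + 2 * (n - m)) (by rw [add_mul, mul_assoc]; omega)
  have key := h k a (FF a c g0) m (by omega) ⟨ha, coprime_FF H.2.1 g0, d2 ▸ H.2.2⟩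
    ⟨by omega, by rw [d2]; omega, by omega, by omega⟩
  have e1 : {P : k[X] | P.Monic ∧ Irreducible P ∧ P ∣ a} = (pf a : Set k[X]) := by
    ext P
    simp only [Set.mem_setOf_eq, mem_coe, mem_pf ha, IsPr, and_assoc]
  have e0 : ∀ x, FF a (FF a c g0) x = a * (x + g0) ^ 2 + c := fun x => by
    unfold FF
    linear_combination (-(a * x * g0)) * two
  have e2 : {g : k[X] | (g - g0).degree < m ∧ Irreducible (a * g ^ 2 + c)} =
      (fun x => x + g0) '' (((low k m).filter (fun x => Irreducible (FF a (FF a c g0) x)) :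
        Finset k[X]) : Set k[X]) := by
    ext g
    simp only [Set.mem_setOf_eq, Set.mem_image, mem_coe, mem_filter, mem_low, e0]
    exact ⟨fun hg => ⟨g - g0, by rwa [sub_add_cancel], sub_add_cancel _ _⟩,
      fun ⟨x, hx, e⟩ => by rwa [← e, add_sub_cancel_right]⟩
  have e3 : ∏ P ∈ pf a, (1 - 1 / (Nat.card k : ℝ) ^ P.natDegree)⁻¹ = eu (-1) (pf a) :=
    prod_congr rfl fun P _ => by rw [qq, neg_div, sub_eq_add_neg]
  have p := pow_pos (qq_pos (k := k)) m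
  rw [e1, finprod_mem_coe_finset, e3, e2, Set.ncard_image_of_injective _ (add_left_injective g0),
    Set.ncard_coe_finset, div_div_eq_mul_div, ← qq, div_sub' p.ne', abs_div, abs_of_pos p,
    div_le_iff₀ p]
  rw [d1] at key
  refine le_trans (le_of_eq (congrArg _ ?_)) key
  push_cast
  ring

end Pool.Agent.P.MP_8be758_nt.L3
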