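import Pool.Agent.P.MP_8be758_nt.L2.If

/-! Definitions and basic facts for the uniform version (short intervals, growing coefficients).
The variable runs over all polynomials of degree less than `n`; the constant term `c` has degree
a little more than `2 n`. -/

namespace Pool.Agent.P.MP_8be758_nt.L3

open Polynomial Finset
open Pool.Agent.P.MP_8be758_nt.C2 Pool.Agent.P.MP_8be758_nt.L2
open scoped Classical

variable {k : Type} [Field k]

/-- the polynomials of degree less than `n` in the class `r` modulo `M` -/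
noncomputable def Gx [Finite k] (M r : k[X]) (n : ℕ) : Finset k[X] :=
  (low k n).filter (fun g => M ∣ g - r)

/-- the size conditions on the coefficients -/
def Sz (a c : k[X]) (n δ : ℕ) : Prop :=
  a.natDegree ≤ δ ∧ (derivative (a * c)).natDegree ≤ δ ∧ a.natDegree + 2 * n ≤ c.natDegree ∧
    c.natDegree ≤ 2 * n + δ

/-- the sum of `ξ` over the `g` of degree less than `n` whose value is divisible by all of `S` -/
noncomputable def cx [Finite k] (a c : k[X]) (n : ℕ) (ξ : k[X] → ℝ) (S : Finset k[X]) : ℝ :=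
  ∑ g ∈ (low k n).filter (fun g => pr S ∣ FF a c g), ξ g

/-- the remainder term -/
noncomputable def rr [Finite k] (a c : k[X]) (n : ℕ) (S : Finset k[X]) : ℝ :=
  cx a c n (fun _ => 1) S - qq k ^ n / qq k ^ dg S

/-- the weighted sum over values and divisors of degree `D` -/
noncomputable def NX [Finite k] (a c : k[X]) (n : ℕ) (lam : Finset k[X] → ℝ) (ξ : k[X] → ℝ)
    (D : ℕ) (φ : Finset k[X] → ℝ) : ℝ :=
  ∑ g ∈ low k n, ξ g * (wt lam (pf (FF a c g)) *
    ∑ d ∈ (pf (FF a c g)).powerset.filter (fun d => dg d = D), φ d)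

/-- the same without twist -/
noncomputable def NN [Finite k] (a c : k[X]) (n : ℕ) (lam : Finset k[X] → ℝ) (D : ℕ)
    (φ : Finset k[X] → ℝ) : ℝ := NX a c n lam (fun _ => 1) D φ

theorem Sz.mono {a c : k[X]} {n δ δ' : ℕ} (h : Sz a c n δ) (hd : δ ≤ δ') : Sz a c n δ' :=
  ⟨h.1.trans hd, h.2.1.trans hd, h.2.2.1, h.2.2.2.trans (by omega)⟩

variable [Finite k]

theorem mem_Gx {M r g : k[X]} {n : ℕ} : g ∈ Gx M r n ↔ g ∈ low k n ∧ M ∣ g - r := mem_filter

theorem add_mem_Gx {M r g v : k[X]} {n : ℕ} (hg : g ∈ Gx M r n) (hv : v ∈ low k n)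
    (hM : M ∣ v) : g + v ∈ Gx M r n := by
  obtain ⟨h1, h2⟩ := mem_Gx.1 hg
  exact mem_Gx.2 ⟨add_mem_low h1 hv, by rw [add_sub_right_comm]; exact dvd_add h2 hM⟩

theorem card_Gx {M : k[X]} (hM : M ≠ 0) (r : k[X]) {n : ℕ} (h : M.natDegree ≤ n) :
    ((Gx M r n).card : ℝ) = qq k ^ n / qq k ^ M.natDegree := by
  have hq := qq_pos (k := k)
  have h0 : r % M ∈ low k n := low_mono h (mod_mem_low hM _)
  have hd : M ∣ r % M - r := by
    rw [EuclideanDomain.mod_eq_sub_mul_div]
    exact ⟨-(r / M), by ring⟩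
  rw [← pow_sub₀ _ hq.ne' h |>.trans (div_eq_mul_inv _ _).symm, ← card_low_dvd hM h]
  congr 1
  symm
  refine card_bij (fun y _ => r % M + y) ?_ ?_ ?_
  · intro y hy
    obtain ⟨h1, h2⟩ := mem_filter.1 hy
    refine mem_Gx.2 ⟨add_mem_low h0 h1, ?_⟩
    have := dvd_add hd h2
    convert this using 1; ring
  · intro y _ y' _ e
    simpa using e
  · intro g hg
    obtain ⟨h1, h3⟩ := mem_Gx.1 hg
    refine ⟨g - r % M, mem_filter.2 ⟨sub_mem_low h1 h0, ?_⟩, by ring⟩
    have := dvd_sub h3 hd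
    convert this using 1; ring

/-- all values have the degree of the constant term -/
theorem natDegree_FF' {a c g : k[X]} {n : ℕ} (hn : 1 ≤ n) (hg : g ∈ low k n)
    (h : a.natDegree + 2 * n ≤ c.natDegree) : (FF a c g).natDegree = c.natDegree := by
  have h1 := natDegree_le_of_mem_low hg
  have h2 : (a * g ^ 2).natDegree ≤ a.natDegree + 2 * g.natDegree :=
    natDegree_mul_le.trans (by rw [natDegree_pow])
  rw [FF, natDegree_add_eq_right_of_natDegree_lt (by omega)]

theorem card_pf_le {a : k[X]} (ha : a ≠ 0) : (pf a).card ≤ a.natDegree :=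
  (card_le_dg fun _ => isPr_of_mem_pf).trans (dg_pf_le ha)

theorem four_pow_pf_le {a : k[X]} (ha : a ≠ 0) {δ : ℕ} (h : a.natDegree ≤ δ) :
    (4 : ℝ) ^ (pf a).card ≤ 2 ^ (2 * δ) := by
  rw [pow_mul, show (2 : ℝ) ^ 2 = 4 by norm_num]
  exact pow_le_pow_right₀ (by norm_num) ((card_pf_le ha).trans h)

theorem one_le_eu_mul {s : Finset k[X]} (hs : ∀ P ∈ s, IsPr P) : 1 ≤ eu (-1) s * eu 1 s := by
  rw [eu, eu, ← prod_mul_distrib]
  refine Finset.one_le_prod fun P hP => ?_
  have h : 2 ≤ qq k ^ P.natDegree :=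
    two_le_qq.trans (le_self_pow₀ one_le_qq (Nat.one_le_iff_ne_zero.1 (hs P hP).pos))
  generalize qq k ^ P.natDegree = x at h
  have x0 : 0 < x := by linarith
  have h1 : 1 / x ≤ 1 / 2 := one_div_le_one_div_of_le (by norm_num) h
  have h2 : 0 < 1 / x := by positivity
  rw [← mul_inv, neg_div]
  refine (one_le_inv₀ (mul_pos (by linarith) (by linarith))).2 ?_
  nlinarith

theorem one_le_eu {s : Finset k[X]} (hs : ∀ P ∈ s, IsPr P) : 1 ≤ eu (-1) s := by
  have h1 := one_le_eu_mul hs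
  have h2 := eu_one_pos s
  have h3 := eu_one_le s
  by_contra h
  nlinarith

end Pool.Agent.P.MP_8be758_nt.L3
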