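import Pool.Agent.P.MP_8be758_nt.L3.Defs

/-! The steps of the uniform version, as statements. Steps not listed here are those of `L2`. -/

namespace Pool.Agent.P.MP_8be758_nt.L3

open Polynomial Finset Filter
open Pool.Agent.P.MP_8be758_nt.C2 Pool.Agent.P.MP_8be758_nt.L2
open scoped Classical Topology

-- deps:
def S_XP : Prop :=
  ∀ (k : Type) [Field k] [Finite k] [CharP k 2] (a c : k[X]) (n E D : ℕ)
    (lam φ : Finset k[X] → ℝ) (ξ : k[X] → ℝ), Hyp a c → (∀ S, lam S ≠ 0 → S ∈ Sle k E) →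
    NX a c n lam ξ D φ = ∑ e ∈ (Sle k E).filter (fun e => Disjoint e (pf a)),
      lam e * ∑ d ∈ Sc (pf a) D, φ d * cx a c n ξ (d ∪ e)

-- deps: ROOT ORTH
def S_RF : Prop :=
  ∀ (k : Type) [Field k] [Finite k] [CharP k 2] (a c : k[X]) (n : ℕ) (S : Finset k[X]),
    a ≠ 0 → (∀ P ∈ S, IsPr P) → Disjoint S (pf a) →
    (dg S ≤ n → rr a c n S = 0) ∧ |rr a c n S| ≤ 1 ∧
    (n < dg S → rr a c n S = (∑ h ∈ (low k (dg S - n)).erase 0,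
      psi (res (pr S) (h * rt a c (pr S)))) / qq k ^ (dg S - n))

-- deps: BASE REC
def S_GLB : Prop :=
  ∀ (k : Type) [Field k] [Finite k] (pa : Finset k[X]), (∀ P ∈ pa, IsPr P) → ∀ (R : ℕ),
    eu 1 pa ^ 2 / 16 * ((R : ℝ) + 1) ^ 2 ≤ ∑ S ∈ Sle k R, ∏ P ∈ S, gp pa P / (1 - gp pa P)

-- deps: SEL0 GLB
def S_SEL : Prop :=
  ∀ (k : Type) [Field k] [Finite k] (pa pv : Finset k[X]) (E : ℕ), (∀ P ∈ pa, IsPr P) →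
    (∀ P ∈ pv, IsPr P) → 2 * dg pv + 2 ≤ E → ∃ lam, Wt pa pv E (256 / eu 1 pa ^ 2) lam

-- deps: SQF
def S_ID : Prop :=
  ∀ (k : Type) [Field k] [Finite k] [CharP k 2] (a c : k[X]) (n E δ : ℕ) (C1 : ℝ)
    (lam : Finset k[X] → ℝ), Hyp a c → Wa a c E C1 lam → Sz a c n δ → E ≤ n → δ ≤ n → 1 ≤ n →
    ∑ D ∈ range (c.natDegree + 1), ((n : ℝ) - D) * NN a c n lam D sg =
      (c.natDegree : ℝ) * ((low k n).filter (fun g => Irreducible (FF a c g))).card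

-- deps: XP RF SPL XC
def S_T1A : Prop :=
  ∀ (k : Type) [Field k] [Finite k] [CharP k 2] (a c : k[X]) (n E : ℕ)
    (lam : Finset k[X] → ℝ), Hyp a c → lam ∅ = 1 → (∀ S, lam S ≠ 0 → S ∈ Sle k E) →
    2 * E ≤ n →
    |∑ D ∈ range (n - E + 1), ((n : ℝ) - D) * NN a c n lam D sg - eu (-1) (pf a) * qq k ^ n| ≤
      qq k ^ n * (((E : ℝ) + 1) * 4 ^ (pf a).card / √(qq k) ^ (n - 2 * E)) *
        ∑ e ∈ Sle k E, |lam e| * 8 ^ e.card / qq k ^ dg e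

-- deps: T1A LAM
def S_T1 : Prop :=
  ∀ ε : ℝ, 0 < ε → ∃ n0 : ℕ, ∀ (k : Type) [Field k] [Finite k] [CharP k 2] (a c : k[X])
    (n E : ℕ) (C1 : ℝ) (lam : Finset k[X] → ℝ), n0 ≤ n → Hyp a c → 16 * a.natDegree ≤ n →
      4 * E ≤ n → Wa a c E C1 lam →
      |∑ D ∈ range (n - E + 1), ((n : ℝ) - D) * NN a c n lam D sg -
        eu (-1) (pf a) * qq k ^ n| ≤ ε * qq k ^ n

-- deps:
def S_BADK : Prop :=
  ∀ (k : Type) [Field k] [Finite k] [CharP k 2] (m m1 U1 x0 : k[X]) (n N J r : ℕ), m1 ≠ 0 →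
    m ∣ m1 → m1.natDegree + 2 * J ≤ n → N + 2 * r ≤ 2 * m1.natDegree + 2 * J → r + 1 ≤ J →
    (((Gx m x0 n).filter (fun x => derivative ((U1 + x) * m1) ∈ low k N)).card : ℝ) * qq k ^ r ≤
      (Gx m x0 n).card

-- deps:
def S_PARM : Prop :=
  ∀ κ : ℕ, 1 ≤ κ → ∃ s κ2 n0 : ℕ, 1 ≤ κ2 ∧ ∀ n ≥ n0, ∃ J L t : ℕ,
    2 * J + 2 * (n / κ2) ≤ n / κ ∧ t + 1 ≤ J ∧ 2 * (n / κ2) ≤ t / 2 ^ (s + 1) ∧ n / κ2 < n ∧
    L + n / κ2 ≤ J ∧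
    ∀ dV ρ : ℕ, dV ≤ n / κ2 → ρ ≤ 2 * t → Even (2 * (n : ℤ) + 2 * J - 1 - 3 * ρ - 2 * dV) →
      Ok (s + 1) t L (2 * (J : ℤ)) (2 * (n : ℤ) + 2 * J - 1 - 3 * ρ - 2 * dV)

-- deps: WY DEC BADK PARM
def S_TWU : Prop :=
  C2.S_FORM → ∀ κ : ℕ, 1 ≤ κ → ∃ κ2 n0 : ℕ, 1 ≤ κ2 ∧
    ∀ (k : Type) [Field k] [Finite k] [CharP k 2] (V U1 m x0 : k[X]) (n : ℕ), n0 ≤ n → V ≠ 0 →
      U1.Monic → n ≤ U1.natDegree → U1.natDegree ≤ n + n / κ2 → V.natDegree ≤ n / κ2 →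
      m ≠ 0 → m.natDegree + n / κ ≤ n →
      |∑ x ∈ Gx m x0 n, mu (eo (U1 + x) V)| ≤ 3 * (qq k ^ n / qq k ^ m.natDegree) / 2 ^ (n / κ2)

-- deps: TWU ROOT
def S_TW : Prop :=
  C2.S_FORM → ∀ κ : ℕ, 1 ≤ κ → ∃ κ2 n0 : ℕ, 1 ≤ κ2 ∧
    ∀ (k : Type) [Field k] [Finite k] [CharP k 2] (a c : k[X]) (n : ℕ) (S : Finset k[X]),
      n0 ≤ n → Hyp a c → Sz a c n (n / κ2) → (∀ P ∈ S, IsPr P) → Disjoint S (pf a) →
      dg S + n / κ ≤ n →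
      |cx a c n (fun g => mu (FF a c g)) S| ≤ 3 * (qq k ^ n / qq k ^ dg S) / 2 ^ (n / κ2)

-- deps: SQF
def S_CPL : Prop :=
  ∀ (k : Type) [Field k] [Finite k] [CharP k 2] (a c : k[X]) (n E D : ℕ) (C1 : ℝ)
    (lam : Finset k[X] → ℝ), Hyp a c → Wa a c E C1 lam → 1 ≤ n →
    a.natDegree + 2 * n ≤ c.natDegree → D ≤ c.natDegree →
    NN a c n lam D sg = NX a c n lam (fun g => mu (FF a c g)) (c.natDegree - D) sg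

-- deps: XP TW CPL SPL XAB LAM
def S_T3 : Prop :=
  C2.S_FORM → ∀ (κ : ℕ) (ε : ℝ), 4 ≤ κ → 0 < ε → ∃ κ2 n0 : ℕ, 1 ≤ κ2 ∧
    ∀ (k : Type) [Field k] [Finite k] [CharP k 2] (a c : k[X]) (n : ℕ) (C1 : ℝ)
      (lam : Finset k[X] → ℝ), n0 ≤ n → Hyp a c → Sz a c n (n / κ2) → Wa a c (n / κ) C1 lam →
      |∑ D ∈ Ico (c.natDegree - n + 2 * (n / κ)) (c.natDegree + 1),
        ((n : ℝ) - D) * NN a c n lam D sg| ≤ ε * qq k ^ n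

-- deps: SQ2
def S_PH : Prop :=
  ∀ (k : Type) [Field k] [Finite k] [CharP k 2] (a c w v h B A0 t : k[X]), a ≠ 0 → B ≠ 0 →
    a * c = w ^ 2 + X * v ^ 2 → IsCoprime (A0 ^ 2 + X * B ^ 2) a →
    ∃ z : ℝ, |z| ≤ 1 ∧ ∀ A e ν : k[X], a ∣ A - A0 → B * a ∣ (A + t * B) * e - 1 →
      A ^ 2 + X * B ^ 2 ∣ FF a c ν →
      h.natDegree + v.natDegree + A.natDegree + 2 ≤ (A ^ 2 + X * B ^ 2).natDegree →
      psi (res (A ^ 2 + X * B ^ 2) (h * ν)) =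
        z * psi (res ((A ^ 2 + X * B ^ 2) * a) (h * w)) * psi (res (B * a) (h * v * e))

-- deps: PH COS SQ2 ROOT
def S_WB1 : Prop :=
  ∀ (k : Type) [Field k] [Finite k] [CharP k 2] (a c w v h B M0 : k[X]) (G : Finset k[X])
    (Bd : ℝ) (L D : ℕ), a ≠ 0 → B ≠ 0 → a * c = w ^ 2 + X * v ^ 2 → Squarefree M0 →
    a.natDegree ≤ L → L ≤ B.natDegree → (∀ A ∈ G, ∀ x ∈ low k L, A + x ∈ G) →
    (∀ A ∈ G, (A ^ 2 + X * B ^ 2).natDegree = D ∧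
      h.natDegree + v.natDegree + A.natDegree + 2 ≤ D) →
    1 ≤ L → h.natDegree + w.natDegree + 2 * L ≤ 2 * D →
    (∀ l, |Kl (B * a) (h * v) l| ≤ Bd) →
    |∑ A ∈ G.filter (fun A => Squarefree (A ^ 2 + X * B ^ 2) ∧
        IsCoprime (A ^ 2 + X * B ^ 2) a ∧ M0 ∣ A ^ 2 + X * B ^ 2),
      psi (res (A ^ 2 + X * B ^ 2) (h * rt a c (A ^ 2 + X * B ^ 2)))| *
        qq k ^ (L - a.natDegree) ≤ G.card * Bd

-- deps: WB1 BIJ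
def S_WS1 : Prop :=
  ∀ (k : Type) [Field k] [Finite k] [CharP k 2] (a c w v h : k[X]) (S0 : Finset k[X])
    (D R0 δ : ℕ) (Bd : k[X] → ℝ), a ≠ 0 → a * c = w ^ 2 + X * v ^ 2 → (∀ P ∈ S0, IsPr P) →
    a.natDegree + δ + 1 ≤ R0 → h.natDegree + v.natDegree + 2 ≤ D / 2 →
    h.natDegree + w.natDegree ≤ D + δ → (∀ B, 0 ≤ Bd B) →
    (∀ B ∈ low k (D / 2 + 1), B ≠ 0 → R0 ≤ B.natDegree → ∀ l, |Kl (B * a) (h * v) l| ≤ Bd B) →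
    |WS a c h S0 D| ≤ qq k ^ (D / 2 + 1 + R0) +
      ∑ B ∈ (low k (D / 2 + 1)).filter (fun B => B ≠ 0 ∧ R0 ≤ B.natDegree),
        qq k ^ (D / 2 + 1) / qq k ^ (B.natDegree - δ - a.natDegree) * Bd B

-- deps: WS1 KLB T3S
def S_WSB : Prop :=
  ∃ n0 : ℕ, ∀ (k : Type) [Field k] [Finite k] [CharP k 2] (a c h : k[X]) (n δ D : ℕ)
    (S0 : Finset k[X]), n0 ≤ n → Hyp a c → Sz a c n δ → 1000 * δ ≤ n → n ≤ D → h ≠ 0 →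
      20 * h.natDegree ≤ D → h.natDegree + n ≤ D → (∀ P ∈ S0, IsPr P) →
      |WS a c h S0 D| ≤ qq k ^ D / qq k ^ (D / 20)

-- deps: WSB RF
def S_W1 : Prop :=
  ∃ n0 : ℕ, ∀ (k : Type) [Field k] [Finite k] [CharP k 2] (a c : k[X]) (n δ D : ℕ)
    (S0 : Finset k[X]), n0 ≤ n → Hyp a c → Sz a c n δ → 1000 * δ ≤ n → 20 * D ≤ 21 * n →
      (∀ P ∈ S0, IsPr P) →
      |∑ S ∈ (Sc (pf a) D).filter (fun S => S0 ⊆ S), rr a c n S| ≤ qq k ^ D / qq k ^ (n / 20)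

-- deps: WSB RF ROOT
def S_W2 : Prop :=
  ∃ n0 : ℕ, ∀ (k : Type) [Field k] [Finite k] [CharP k 2] (a c : k[X]) (n δ D b : ℕ)
    (P1 P2 : k[X]), n0 ≤ n → Hyp a c → Sz a c n δ → 1000 * δ ≤ n → P1 ∈ Pd k b → P2 ∈ Pd k b →
      P1 ≠ P2 → P1 ∉ pf a → P2 ∉ pf a → D ≤ n → 40 * b ≤ n →
      |∑ S ∈ Sc (pf a ∪ {P1, P2}) D, rr a c n (insert P1 S) * rr a c n (insert P2 S)| ≤
        qq k ^ (D + 2 * b) / qq k ^ (n / 20)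

-- deps: W2 RF XAB GAUSS
def S_T2B : Prop :=
  ∃ n0 : ℕ, ∀ (k : Type) [Field k] [Finite k] [CharP k 2] (a c : k[X]) (n δ D b : ℕ),
    n0 ≤ n → Hyp a c → Sz a c n δ → 1000 * δ ≤ n → a.natDegree < b → D ≤ n → 40 * b ≤ n →
      (∑ S ∈ Sc (pf a) D, |∑ P ∈ Pd k b \ S, rr a c n (insert P S)|) ^ 2 ≤
        qq k ^ D * (qq k ^ (D + b) + qq k ^ (D + 4 * b) / qq k ^ (n / 20))

-- deps: XP SPL
def S_NR1 : Prop :=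
  ∀ (k : Type) [Field k] [Finite k] [CharP k 2] (a c : k[X]) (n E D : ℕ)
    (lam : Finset k[X] → ℝ) (r : Finset k[X]) (B1 B2 : ℝ), Hyp a c →
    (∀ S, lam S ≠ 0 → S ∈ Sle k E) → (∀ P ∈ r, IsPr P ∧ E < P.natDegree) →
    Disjoint r (pf a) → E + dg r ≤ D → 0 ≤ B1 → 0 ≤ B2 →
    (∀ (s : Finset k[X]) (D' : ℕ), (∀ P ∈ s, IsPr P) → D ≤ D' + E + dg r →
      |xs 1 s D' - (1 - 1 / qq k) * eu 1 s| ≤ 4 ^ s.card * B1) →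
    (∀ (D' : ℕ) (S0 : Finset k[X]), (∀ P ∈ S0, IsPr P) → D' ≤ D + E →
      |∑ S ∈ (Sc (pf a) D').filter (fun S => S0 ⊆ S), rr a c n S| ≤ B2) →
    |NN a c n lam D (fun d => if r ⊆ d then 1 else 0) -
        qq k ^ n * ((1 - 1 / qq k) * eu 1 (pf a)) * GG (pf a) E lam *
          ∏ P ∈ r, (qq k ^ P.natDegree + 1)⁻¹| ≤
      qq k ^ n * (4 ^ ((pf a).card + r.card) * B1) *
        (∑ e ∈ Sle k E, |lam e| * 8 ^ e.card / qq k ^ dg e) +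
      B2 * ∑ e ∈ Sle k E, |lam e| * 2 ^ e.card

-- deps: NR1 XAB LAM W1
def S_NR : Prop :=
  ∃ n0 : ℕ, ∀ (k : Type) [Field k] [Finite k] [CharP k 2] (a c : k[X]) (n E : ℕ) (C1 : ℝ)
    (lam : Finset k[X] → ℝ) (D : ℕ) (r : Finset k[X]), n0 ≤ n → Hyp a c → Sz a c n E →
      1000 * E ≤ n → Wa a c E C1 lam → n ≤ D + E → D ≤ n + 3 * E → r ⊆ II k n E → r.card ≤ 2 →
      |NN a c n lam D (fun d => if r ⊆ d then 1 else 0) -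
        qq k ^ n * ((1 - 1 / qq k) * eu 1 (pf a)) * GG (pf a) E lam *
          ∏ P ∈ r, (qq k ^ P.natDegree + 1)⁻¹| ≤ qq k ^ n / qq k ^ (n / 30)

-- deps: NR
def S_TK : Prop :=
  ∃ n0 : ℕ, ∀ (k : Type) [Field k] [Finite k] [CharP k 2] (a c : k[X]) (n E : ℕ) (C1 : ℝ)
    (lam : Finset k[X] → ℝ) (D : ℕ), n0 ≤ n → Hyp a c → Sz a c n E → 1000 * E ≤ n → 0 ≤ C1 →
      Wa a c E C1 lam → n ≤ D + E → D ≤ n + 3 * E →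
      NN a c n lam D (fun _ => 1) ≤
        qq k ^ n * (eu 1 (pf a) * C1 / (E : ℝ) ^ 2) + qq k ^ n / 2 ^ (n / 100) ∧
      NN a c n lam D (fun d => (LL k n E - om n E d) ^ 2) ≤
        qq k ^ n * (eu 1 (pf a) * C1 / (E : ℝ) ^ 2) * LL k n E + qq k ^ n / 2 ^ (n / 100)

-- deps: XP SPL
def S_ZB1 : Prop :=
  ∀ (k : Type) [Field k] [Finite k] [CharP k 2] (a c : k[X]) (n E D : ℕ)
    (lam : Finset k[X] → ℝ) (B1 B2 : ℝ), Hyp a c → (∀ S, lam S ≠ 0 → S ∈ Sle k E) →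
    a.natDegree ≤ E → E + n / 100 ≤ D → 0 ≤ B1 → 0 ≤ B2 →
    (∀ (s : Finset k[X]) (D' : ℕ), (∀ P ∈ s, IsPr P) → D ≤ D' + E + n / 100 →
      |xs (-1) s D'| ≤ 4 ^ s.card * B1) →
    (∀ b D' : ℕ, 12 * E < b → b ≤ n / 100 → D' + b ≤ D + E →
      ∑ S ∈ Sc (pf a) D', |∑ P ∈ Pd k b \ S, rr a c n (insert P S)| ≤ B2) →
    |NN a c n lam D (fun d => sg d * om n E d)| ≤
      qq k ^ n * (4 ^ ((pf a).card + 1) * (II k n E).card * B1) *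
        (∑ e ∈ Sle k E, |lam e| * 8 ^ e.card / qq k ^ dg e) +
      (n : ℝ) * B2 * ∑ e ∈ Sle k E, |lam e| * 2 ^ e.card

-- deps: ZB1 XAB LAM T2B
def S_ZB : Prop :=
  ∀ κ : ℕ, 1000 ≤ κ → ∃ n0 : ℕ, ∀ (k : Type) [Field k] [Finite k] [CharP k 2] (a c : k[X])
    (n : ℕ) (C1 : ℝ) (lam : Finset k[X] → ℝ) (D : ℕ), n0 ≤ n → Hyp a c → Sz a c n (n / κ) →
      Wa a c (n / κ) C1 lam → n ≤ D + n / κ → D ≤ n + 3 * (n / κ) →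
      |NN a c n lam D (fun d => sg d * om n (n / κ) d)| ≤ qq k ^ n / 2 ^ (n / κ / 4)

-- deps: GAUSS
def S_LLB : Prop :=
  ∀ L0 : ℝ, ∃ κ n0 : ℕ, 1000 ≤ κ ∧ ∀ (k : Type) [Field k] [Finite k] (n : ℕ), n0 ≤ n →
    L0 ≤ LL k n (n / κ)

-- deps: TK ZB LLB
def S_MID : Prop :=
  ∀ ε : ℝ, 0 < ε → ∃ κ n0 : ℕ, 1000 ≤ κ ∧
    ∀ (k : Type) [Field k] [Finite k] [CharP k 2] (a c : k[X]) (n : ℕ) (lam : Finset k[X] → ℝ),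
      n0 ≤ n → Hyp a c → Sz a c n (n / κ) → Wa a c (n / κ) (256 / eu 1 (pf a) ^ 2) lam →
      |∑ D ∈ Ico (n - n / κ + 1) (c.natDegree - n + 2 * (n / κ)),
        ((n : ℝ) - D) * NN a c n lam D sg| ≤ ε * eu (-1) (pf a) * qq k ^ n

-- deps: ID SEL T1 T3 MID
def S_FIN : Prop :=
  C2.S_FORM → ∀ ε : ℝ, 0 < ε → ∃ κ n0 : ℕ, 1 ≤ κ ∧
    ∀ (k : Type) [Field k] [Finite k] [CharP k 2] (a c : k[X]) (n : ℕ), n0 ≤ n → Hyp a c →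
      Sz a c n (n / κ) →
      |(c.natDegree : ℝ) * ((low k n).filter (fun g => Irreducible (FF a c g))).card -
        eu (-1) (pf a) * qq k ^ n| ≤ ε * eu (-1) (pf a) * qq k ^ n

end Pool.Agent.P.MP_8be758_nt.L3
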