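import Pool.Agent.P.MP_8be758_nt.L3.If

/-! Step TWU. -/

namespace Pool.Agent.P.MP_8be758_nt.L3

open Polynomial Finset Filter
open Pool.Agent.P.MP_8be758_nt.C2 Pool.Agent.P.MP_8be758_nt.L2
open scoped Classical Topology

theorem p_TWU (hWY : S_WY) (hDEC : L2.S_DEC) (hBADK : S_BADK) (hPARM : S_PARM) :
    S_TWU := by
  intro hFORM κ hκ
  obtain ⟨s, κ2, n0, hκ2, hP⟩ := hPARM (2 * κ) (by omega)
  refine ⟨κ2, n0, hκ2, fun k _ _ _ V U1 m U0 n hn hV hU1 hn1 hn2 hVd hm hmn => ?_⟩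
  obtain ⟨n', hn'⟩ : ∃ n', n' = U1.natDegree := ⟨_, rfl⟩
  rw [← hn'] at hn1 hn2
  obtain ⟨J, L, t, p1, p2, p3, p4, p5, p6⟩ := hP n' (by omega)
  have hq := qq_pos (k := k)
  have hdiv := Nat.div_le_self n κ
  have hdiv2 := Nat.div_le_self n κ2
  have hdiv3 : n / κ2 ≤ n' / κ2 := Nat.div_le_div_right hn1
  have hdiv4 : n' / (2 * κ) ≤ n / κ := by
    rw [← Nat.mul_div_mul_left n κ (show 0 < 2 by norm_num)]
    exact Nat.div_le_div_right (by omega)
  have hdiv5 := Nat.div_le_self t (2 ^ (s + 1))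
  set m1 := V ^ 2 * (m * X ^ (n' - 2 * J - m.natDegree - 2 * V.natDegree)) with hm1
  have hX : (X ^ (n' - 2 * J - m.natDegree - 2 * V.natDegree) : k[X]) ≠ 0 :=
    pow_ne_zero _ X_ne_zero
  have hm10 : m1 ≠ 0 := mul_ne_zero (pow_ne_zero 2 hV) (mul_ne_zero hm hX)
  have hd1 : m1.natDegree + 2 * J = n' := by
    rw [hm1, natDegree_mul (pow_ne_zero 2 hV) (mul_ne_zero hm hX), natDegree_mul hm hX,
      natDegree_pow, natDegree_X_pow]
    omega
  have hmm : m ∣ m1 := (dvd_mul_right m _).mul_left _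
  have hzd : ∀ z ∈ low k L, m1.natDegree + 2 * z.natDegree < n := by
    intro z hz
    have := natDegree_le_of_mem_low hz
    omega
  have hv : ∀ z ∈ low k L, m1 * z ^ 2 ∈ low k n := fun z hz =>
    mem_low_of_natDegree_lt (lt_of_le_of_lt (natDegree_mul_le.trans (by rw [natDegree_pow]))
      (hzd z hz))
  set η : ℝ := 1 / 2 ^ (t / 2 ^ (s + 1)) with hη
  set N := n' + m1.natDegree - 1 - 2 * t with hN
  have inner : ∀ x ∈ Gx m U0 n, |∑ z ∈ low k L, mu (eo (U1 + (x + m1 * z ^ 2)) V)| ≤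
      (if derivative ((U1 + x) * m1) ∈ low k N then qq k ^ L else 0) + 2 * η * qq k ^ L := by
    intro x hx
    have hl : x.degree < U1.degree := by
      rw [degree_eq_natDegree hU1.ne_zero, ← hn']
      exact mem_low.1 (low_mono hn1 (mem_Gx.1 hx).1)
    have u1 := hU1.add_of_left hl
    have u2 := (natDegree_add_eq_left_of_degree_lt hl).trans hn'.symm
    simp only [← add_assoc]
    generalize U1 + x = U at u1 u2 ⊢
    have hη0 : 0 ≤ 2 * η * qq k ^ L := by positivity
    split_ifs with hb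
    · refine (abs_sum_le_sum_abs _ _).trans ((sum_le_sum fun z _ => abs_mu_le _).trans ?_)
      rw [sum_const, nsmul_eq_mul, card_low']; linarith
    rw [zero_add]
    obtain ⟨e, χ, he, hχ, hD⟩ := hDEC hFORM k U V m1 u1 hV (by omega) (dvd_mul_right _ _) hm10
    rw [sum_congr rfl (fun z hz => hD z (by have := hzd z hz; omega)), ← mul_sum, abs_mul]
    set c := derivative (U * m1) with hc
    have hc0 : c ≠ 0 := by rintro h; rw [h] at hb; exact hb (zero_mem_low _)
    have c1 : N ≤ c.natDegree := by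
      by_contra h; exact hb (mem_low_of_natDegree_lt (by omega))
    have c2 : c.natDegree ≤ n' + m1.natDegree - 1 := by
      have := natDegree_derivative_le (U * m1)
      rwa [natDegree_mul u1.ne_zero hm10, u2] at this
    obtain ⟨i, c3⟩ : ∃ i, c.natDegree = 2 * i := by
      obtain ⟨x, y, h⟩ := exists_sq_add (U * m1)
      exact ⟨y.natDegree, by rw [hc, h, derivative_sq_add, natDegree_pow]⟩
    have d1 : (X * c ^ 3).natDegree = 1 + 3 * c.natDegree := by
      rw [natDegree_mul X_ne_zero (pow_ne_zero 3 hc0), natDegree_X, natDegree_pow]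
    have d2 : (V ^ 2 * m1 ^ 3).natDegree = 2 * V.natDegree + 3 * m1.natDegree := by
      rw [natDegree_mul (pow_ne_zero 2 hV) (pow_ne_zero 3 hm10), natDegree_pow, natDegree_pow]
    have hok := p6 V.natDegree (n' + m1.natDegree - 1 - c.natDegree) (by omega) (by omega)
      ⟨3 * i + 1 - V.natDegree - 2 * m1.natDegree, by omega⟩
    have := hWY k s t χ hχ U (X * c ^ 3) (V ^ 2 * m1 ^ 3) (fun z => m1 * z ^ 2) m1.leadingCoeff
      m1.natDegree L u1 (mul_ne_zero X_ne_zero (pow_ne_zero 3 hc0))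
      (mul_ne_zero (pow_ne_zero 2 hV) (pow_ne_zero 3 hm10)) (leadingCoeff_ne_zero.2 hm10)
      (fun x y => by rw [CharTwo.add_sq, mul_add])
      (fun z _ hz => ⟨by rw [natDegree_mul hm10 (pow_ne_zero 2 hz), natDegree_pow],
        by rw [leadingCoeff_mul, leadingCoeff_pow]⟩)
      (by rw [d1, d2, u2]; convert hok using 1 <;> omega)
    calc _ ≤ 1 * (2 * η * qq k ^ L) := mul_le_mul he this (abs_nonneg _) (by norm_num)
      _ = _ := one_mul _
  have av := sum_avg (Gx m U0 n) (low k L) (fun z => m1 * z ^ 2)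
    (fun z hz g hg => add_mem_Gx hg (hv z hz) (hmm.mul_right _)) (fun x => mu (eo (U1 + x) V))
  rw [card_low'] at av
  have tot := (abs_sum_le_sum_abs _ _).trans (sum_le_sum inner)
  rw [← av, sum_add_distrib, ← sum_filter, sum_const, sum_const, nsmul_eq_mul, nsmul_eq_mul,
    abs_mul, abs_of_pos (by positivity)] at tot
  have hB := hBADK k m m1 U1 U0 n N (J - (n' - n)) (t - (n' - n)) hm10 hmm (by omega) (by omega)
    (by omega)
  rw [← card_Gx hm U0 (by omega : m.natDegree ≤ n)]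
  set G : ℝ := ((Gx m U0 n).card : ℝ) with hG
  set B : ℝ := (((Gx m U0 n).filter (fun x => derivative ((U1 + x) * m1) ∈ low k N)).card : ℝ)
  have hG0 : 0 ≤ G := by positivity
  have hB0 : 0 ≤ B := by positivity
  have h1 : (2 : ℝ) ^ (n / κ2) ≤ 2 ^ (t / 2 ^ (s + 1)) := pow_le_pow_right₀ (by norm_num) (by omega)
  have h2 : (2 : ℝ) ^ (n / κ2) ≤ qq k ^ (t - (n' - n)) :=
    (pow_le_pow_right₀ (by norm_num) (by omega)).trans (two_pow_le_qq _)
  have h3 : B ≤ G * (1 / 2 ^ (n / κ2)) := by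
    rw [mul_one_div, le_div_iff₀ (by positivity)]
    exact (mul_le_mul_of_nonneg_left h2 hB0).trans hB
  have h4 : G * η ≤ G * (1 / 2 ^ (n / κ2)) :=
    mul_le_mul_of_nonneg_left (one_div_le_one_div_of_le (by positivity) h1) hG0
  have hp : 0 < qq k ^ L := by positivity
  rw [div_eq_mul_one_div]
  refine le_of_mul_le_mul_left ?_ hp
  nlinarith [mul_le_mul_of_nonneg_right h3 hp.le, mul_le_mul_of_nonneg_right h4 hp.le]

end Pool.Agent.P.MP_8be758_nt.L3
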